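import Mathlib

/-!
# Large subspaces: tools for MP_2f8bd9_al (positive result)

`Bg U`: the dimension of `U` is at least the dimension of `V`; `Cb U`: the same for the codimension.
-/

set_option autoImplicit false

namespace Pool.Agent.U685.GLP

open Cardinal Submodule

universe u v

section basic
variable {F : Type u} {V : Type v} [Field F] [AddCommGroup V] [Module F V]

/-- the dimension of `U` is the dimension of `V` -/
def Bg (U : Submodule F V) : Prop := Module.rank F V ≤ Module.rank F U

/-- the codimension of `U` is the dimension of `V` -/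
def Cb (U : Submodule F V) : Prop := Module.rank F V ≤ Module.rank F (V ⧸ U)

theorem Bg.mono {P Q : Submodule F V} (h : P ≤ Q) (hP : Bg P) : Bg Q :=
  le_trans hP (Submodule.rank_mono h)

theorem Cb.anti {P Q : Submodule F V} (h : P ≤ Q) (hQ : Cb Q) : Cb P :=
  le_trans hQ (LinearMap.rank_le_of_surjective (Submodule.factor h) (Submodule.factor_surjective h))

theorem Bg.eq {P : Submodule F V} (hP : Bg P) : Module.rank F P = Module.rank F V :=
  le_antisymm (Submodule.rank_le P) hP

theorem Cb.eq {P : Submodule F V} (hP : Cb P) : Module.rank F (V ⧸ P) = Module.rank F V :=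
  le_antisymm (rank_quotient_le P) hP

theorem Bg.map {P : Submodule F V} (hP : Bg P) (x : V ≃ₗ[F] V) : Bg (P.map (x : V →ₗ[F] V)) := by
  unfold Bg
  rw [LinearEquiv.rank_map_eq]
  exact hP

theorem Cb.map {P : Submodule F V} (hP : Cb P) (x : V ≃ₗ[F] V) : Cb (P.map (x : V →ₗ[F] V)) := by
  unfold Cb
  rw [← (Submodule.Quotient.equiv P (P.map (x : V →ₗ[F] V)) x rfl).rank_eq]
  exact hP

/-- a complement of a subspace of big codimension is big -/
theorem Cb.compl {P Q : Submodule F V} (hP : Cb P) (h : IsCompl P Q) : Bg Q := by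
  unfold Bg
  rw [← (Submodule.quotientEquivOfIsCompl P Q h).rank_eq]
  exact hP

/-- a subspace disjoint from a big subspace has big codimension -/
theorem Bg.disj {P Q : Submodule F V} (hP : Bg P) (h : Disjoint P Q) : Cb Q := by
  unfold Cb
  refine le_trans hP (LinearMap.rank_le_of_injective (Q.mkQ.comp P.subtype) ?_)
  rw [← LinearMap.ker_eq_bot, LinearMap.ker_eq_bot']
  rintro ⟨m, hm⟩ h1
  have h2 : m ∈ Q := by simpa using h1
  have h3 := Submodule.disjoint_def.1 h m hm h2
  exact Subtype.ext h3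

/-- every space of infinite dimension is isomorphic to its square -/
theorem sq {X : Type v} [AddCommGroup X] [Module F X] (h : ℵ₀ ≤ Module.rank F X) :
    Nonempty (X ≃ₗ[F] X × X) := by
  refine nonempty_linearEquiv_of_rank_eq ?_
  rw [rank_prod', Cardinal.add_eq_self h]

/-- halves -/
theorem halve {X : Type v} [AddCommGroup X] [Module F X] (h : ℵ₀ ≤ Module.rank F X) :
    ∃ A B : Submodule F X, IsCompl A B ∧ Module.rank F A = Module.rank F X ∧
      Module.rank F B = Module.rank F X := by
  obtain ⟨e⟩ := sq (F := F) h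
  let f : X →ₗ[F] X := (e.symm : X × X →ₗ[F] X).comp (LinearMap.inl F X X)
  let g : X →ₗ[F] X := (e.symm : X × X →ₗ[F] X).comp (LinearMap.inr F X X)
  have hf : Function.Injective f := by
    intro a b hab
    have := e.symm.injective hab
    simpa using this
  have hg : Function.Injective g := by
    intro a b hab
    have := e.symm.injective hab
    simpa using this
  refine ⟨LinearMap.range f, LinearMap.range g, ⟨?_, ?_⟩, rank_range_of_injective f hf,
    rank_range_of_injective g hg⟩
  · rw [Submodule.disjoint_def]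
    rintro x ⟨a, ha⟩ ⟨b, hb⟩
    have h1 : e.symm (a, 0) = e.symm (0, b) := by
      change f a = g b
      rw [ha, hb]
    have h2 := e.symm.injective h1
    have h3 : a = 0 := congrArg Prod.fst h2
    rw [← ha, h3, map_zero]
  · rw [codisjoint_iff, eq_top_iff]
    intro x _
    rw [Submodule.mem_sup]
    refine ⟨f (e x).1, ⟨_, rfl⟩, g (e x).2, ⟨_, rfl⟩, ?_⟩
    change e.symm ((e x).1, 0) + e.symm (0, (e x).2) = x
    rw [← map_add]
    simp

/-- halves of a big subspace -/
theorem Bg.halve (hV : ℵ₀ ≤ Module.rank F V) {P : Submodule F V} (hP : Bg P) :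
    ∃ A B : Submodule F V, A ≤ P ∧ B ≤ P ∧ A ⊔ B = P ∧ Disjoint A B ∧ Bg A ∧ Bg B := by
  obtain ⟨A, B, h1, h2, h3⟩ := GLP.halve (F := F) (X := P) (hP.eq ▸ hV)
  refine ⟨A.map P.subtype, B.map P.subtype, Submodule.map_subtype_le _ _,
    Submodule.map_subtype_le _ _, ?_, ?_, ?_, ?_⟩
  · rw [← Submodule.map_sup, h1.sup_eq_top, Submodule.map_subtype_top]
  · rw [Submodule.disjoint_def]
    rintro x ⟨a, ha, rfl⟩ ⟨b, hb, hab⟩
    have h4 : b = a := Subtype.ext hab
    subst h4
    have := Submodule.disjoint_def.1 h1.disjoint b ha hb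
    rw [this, map_zero]
  · unfold Bg
    rw [rank_map_eq P.injective_subtype, h2]
    exact hP
  · unfold Bg
    rw [rank_map_eq P.injective_subtype, h3]
    exact hP

/-- shrinking: `Y + T A'` still has big codimension -/
theorem shrink (hV : ℵ₀ ≤ Module.rank F V) {Y A : Submodule F V} (T : V →ₗ[F] V) (hY : Cb Y)
    (hA : Bg A) : ∃ A' ≤ A, Bg A' ∧ Cb (Y ⊔ A'.map T) := by
  let φ : A →ₗ[F] (V ⧸ Y) := (Y.mkQ.comp T).comp A.subtype
  have h0 : Module.rank F (LinearMap.range φ) + Module.rank F (LinearMap.ker φ) =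
      Module.rank F V := by
    rw [LinearMap.rank_range_add_rank_ker, hA.eq]
  by_cases h1 : Module.rank F V ≤ Module.rank F (LinearMap.ker φ)
  · refine ⟨(LinearMap.ker φ).map A.subtype, Submodule.map_subtype_le _ _, ?_, ?_⟩
    · unfold Bg
      rw [rank_map_eq A.injective_subtype]
      exact h1
    · have h2 : Y ⊔ ((LinearMap.ker φ).map A.subtype).map T = Y := by
        rw [sup_eq_left]
        rintro _ ⟨_, ⟨a, ha, rfl⟩, rfl⟩
        have h3 : Y.mkQ (T a) = 0 := ha
        simpa using h3
      rw [h2]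
      exact hY
  · have h2 : Module.rank F V ≤ Module.rank F (LinearMap.range φ) := by
      by_contra h3
      have := Cardinal.add_lt_of_lt hV (not_le.1 h3) (not_le.1 h1)
      rw [h0] at this
      exact lt_irrefl _ this
    have h3 : Module.rank F (LinearMap.range φ) = Module.rank F V :=
      le_antisymm ((Submodule.rank_le _).trans (rank_quotient_le Y)) h2
    obtain ⟨R₁, R₂, h4, h5, h6⟩ := GLP.halve (F := F) (X := LinearMap.range φ) (h3 ▸ hV)
    refine ⟨(R₁.comap φ.rangeRestrict).map A.subtype, Submodule.map_subtype_le _ _, ?_, ?_⟩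
    · unfold Bg
      rw [rank_map_eq A.injective_subtype, ← h3, ← h5]
      have h7 : (R₁.comap φ.rangeRestrict).map φ.rangeRestrict = R₁ :=
        Submodule.map_comap_eq_of_surjective φ.surjective_rangeRestrict R₁
      calc Module.rank F R₁ = Module.rank F ((R₁.comap φ.rangeRestrict).map φ.rangeRestrict) := by
            rw [h7]
        _ ≤ _ := rank_map_le _ _
    · unfold Cb
      rw [← h3, ← h6]
      have h7 : Y ≤ Y ⊔ ((R₁.comap φ.rangeRestrict).map A.subtype).map T := le_sup_left
      refine LinearMap.rank_le_of_injective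
        ((Submodule.factor h7).comp ((LinearMap.range φ).subtype.comp R₂.subtype)) ?_
      refine (injective_iff_map_eq_zero _).2 ?_
      rintro ⟨⟨m, hm⟩, hm2⟩ h8
      obtain ⟨a, rfl⟩ := hm
      have h9 : T a ∈ Y ⊔ ((R₁.comap φ.rangeRestrict).map A.subtype).map T := by
        have : Submodule.factor h7 (Y.mkQ (T a)) = 0 := h8
        have h20 : (Submodule.mkQ _) (T a) = (0 : V ⧸ _) := this
        simpa using h20
      rw [Submodule.mem_sup] at h9
      obtain ⟨y, hy, z, ⟨_, ⟨b, hb, rfl⟩, rfl⟩, h10⟩ := h9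
      have h11 : φ a = φ b := by
        change Y.mkQ (T a) = Y.mkQ (T b)
        rw [← h10, map_add]
        have : Y.mkQ y = 0 := by simpa using hy
        rw [this, zero_add]
        rfl
      have h12 : φ.rangeRestrict a = φ.rangeRestrict b := Subtype.ext h11
      have h13 : φ.rangeRestrict a ∈ R₁ := by
        rw [h12]
        exact hb
      have h14 := Submodule.disjoint_def.1 h4.disjoint (φ.rangeRestrict a) h13 hm2
      apply Subtype.ext
      exact h14

/-- extension of an isomorphism of subspaces -/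
theorem extend {P Q : Submodule F V} (e : P ≃ₗ[F] Q)
    (h : Module.rank F (V ⧸ P) = Module.rank F (V ⧸ Q)) :
    ∃ x : V ≃ₗ[F] V, ∀ p : P, x p = e p := by
  obtain ⟨P', hP⟩ := Submodule.exists_isCompl P
  obtain ⟨Q', hQ⟩ := Submodule.exists_isCompl Q
  have h1 : Module.rank F P' = Module.rank F Q' := by
    rw [← (Submodule.quotientEquivOfIsCompl P P' hP).rank_eq,
      ← (Submodule.quotientEquivOfIsCompl Q Q' hQ).rank_eq, h]
  let e' : P' ≃ₗ[F] Q' := LinearEquiv.ofRankEq P' Q' h1
  refine ⟨(Submodule.prodEquivOfIsCompl P P' hP).symm ≪≫ₗ (e.prodCongr e') ≪≫ₗ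
    Submodule.prodEquivOfIsCompl Q Q' hQ, fun p => ?_⟩
  rw [LinearEquiv.trans_apply, LinearEquiv.trans_apply,
    Submodule.prodEquivOfIsCompl_symm_apply_left]
  simp

/-- `GL(V)` is transitive on the large subspaces -/
theorem trans_big {P Q : Submodule F V} (h1 : Bg P) (h2 : Cb P) (h3 : Bg Q) (h4 : Cb Q) :
    ∃ x : V ≃ₗ[F] V, P.map (x : V →ₗ[F] V) = Q := by
  let e : P ≃ₗ[F] Q := LinearEquiv.ofRankEq P Q (h1.eq.trans h3.eq.symm)
  obtain ⟨x, hx⟩ := extend e (h2.eq.trans h4.eq.symm)
  refine ⟨x, le_antisymm ?_ ?_⟩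
  · rintro _ ⟨p, hp, rfl⟩
    have : x p = e ⟨p, hp⟩ := hx ⟨p, hp⟩
    change x p ∈ Q
    rw [this]
    exact (e ⟨p, hp⟩).2
  · intro q hq
    refine ⟨e.symm ⟨q, hq⟩, (e.symm ⟨q, hq⟩).2, ?_⟩
    change x _ = q
    rw [hx, LinearEquiv.apply_symm_apply]

/-- large subspaces exist -/
theorem exists_big (hV : ℵ₀ ≤ Module.rank F V) : ∃ P : Submodule F V, Bg P ∧ Cb P := by
  obtain ⟨A, B, h1, h2, h3⟩ := GLP.halve (F := F) (X := V) hV
  refine ⟨A, h2.ge, ?_⟩
  have hB : Bg B := h3.ge
  exact hB.disj h1.disjoint.symm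

end basic

section tv
variable {F : Type u} {V : Type v} [Field F] [AddCommGroup V] [Module F V]

/-- the map `1 + E` for `E ^ 2 = 0` -/
def tv (E : V →ₗ[F] V) (h : ∀ v, E (E v) = 0) : V ≃ₗ[F] V where
  toFun v := v + E v
  invFun v := v - E v
  left_inv v := by simp [h]
  right_inv v := by simp [h]
  map_add' a b := by
    rw [map_add]
    abel
  map_smul' c a := by simp [smul_add]

@[simp] theorem tv_apply (E : V →ₗ[F] V) (h : ∀ v, E (E v) = 0) (v : V) : tv E h v = v + E v := rfl

@[simp] theorem tv_inv_apply (E : V →ₗ[F] V) (h : ∀ v, E (E v) = 0) (v : V) :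
    (tv E h)⁻¹ v = v - E v := rfl

/-- `E` maps into `U` and kills `U` -/
def Nil (U : Submodule F V) (E : V →ₗ[F] V) : Prop := (∀ v, E v ∈ U) ∧ ∀ u ∈ U, E u = 0

theorem Nil.sq {U : Submodule F V} {E : V →ₗ[F] V} (h : Nil U E) (v : V) : E (E v) = 0 :=
  h.2 _ (h.1 v)

/-- `G` contains the unipotent maps `1 + E` with `E` a map into `U` that kills `U` -/
def HasU (G : Subgroup (V ≃ₗ[F] V)) (U : Submodule F V) : Prop :=
  ∀ (E : V →ₗ[F] V) (h : Nil U E), tv E h.sq ∈ G

end tv

end Pool.Agent.U685.GLP
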