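import Pool.Agent.U685.GLP.Core

/-!
# Fields of more elements than the dimension
-/

set_option autoImplicit false

namespace Pool.Agent.U685.GLP

open Cardinal Submodule

universe u v

section big
variable {F : Type u} {V : Type v} [Field F] [AddCommGroup V] [Module F V]

/-- the shift of `X^(ℤ)` -/
noncomputable def shift (F : Type u) [Field F] (X : Type v) [AddCommGroup X] [Module F X] :
    (ℤ →₀ X) ≃ₗ[F] (ℤ →₀ X) := Finsupp.domLCongr (Equiv.addRight (1 : ℤ))

theorem shift_single {X : Type v} [AddCommGroup X] [Module F X] (n : ℤ) (x : X) :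
    shift F X (Finsupp.single n x) = Finsupp.single (n + 1) x := by
  rw [shift, Finsupp.domLCongr_single]
  rfl

/-- a nonzero scalar that is no eigenvalue -/
theorem exists_not_eig (hV : ℵ₀ ≤ Module.rank F V)
    (hF : Cardinal.lift.{u} (Module.rank F V) < Cardinal.lift.{v} #F) {Q : Type v}
    [AddCommGroup Q] [Module F Q] (hQ : Module.rank F Q ≤ Module.rank F V) (T : Q →ₗ[F] Q) :
    ∃ c : F, c ≠ 0 ∧ ∀ q, T q = c • q → q = 0 := by
  by_contra hcon
  push Not at hcon
  have hsub : ∀ c : {c : F // c ≠ 0}, ∃ q : Q, T q = (c : F) • q ∧ q ≠ 0 := fun c => hcon c c.2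
  choose w hw hw' using hsub
  have hli : LinearIndependent F w := by
    refine Module.End.eigenvectors_linearIndependent' T (fun c : {c : F // c ≠ 0} => (c : F))
      Subtype.val_injective w fun c => ?_
    rw [Module.End.hasEigenvector_iff, Module.End.mem_eigenspace_iff]
    exact ⟨hw c, hw' c⟩
  have h1 := hli.cardinal_lift_le_rank
  have h2 : #F ≤ #{c : F // c ≠ 0} + 1 := by
    have h3 : #F ≤ #(Option {c : F // c ≠ 0}) := by
      classical
      refine Cardinal.mk_le_of_surjective (f := fun o : Option {c : F // c ≠ 0} =>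
        o.elim 0 fun c => (c : F)) ?_
      intro c
      by_cases hc : c = 0
      · exact ⟨none, hc.symm⟩
      · exact ⟨some ⟨c, hc⟩, rfl⟩
    rwa [Cardinal.mk_option] at h3
  have h4 : Cardinal.lift.{v} #F ≤ Cardinal.lift.{v} #{c : F // c ≠ 0} + 1 := by
    have := Cardinal.lift_le.{v}.2 h2
    rwa [Cardinal.lift_add, Cardinal.lift_one] at this
  have h5 : Cardinal.lift.{v} #{c : F // c ≠ 0} ≤ Cardinal.lift.{u} (Module.rank F V) :=
    h1.trans (Cardinal.lift_le.2 hQ)
  have h6 : ℵ₀ ≤ Cardinal.lift.{u} (Module.rank F V) := by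
    rw [← Cardinal.lift_aleph0.{u, v}]
    exact Cardinal.lift_le.2 hV
  have h7 : Cardinal.lift.{u} (Module.rank F V) + 1 = Cardinal.lift.{u} (Module.rank F V) :=
    Cardinal.add_one_eq h6
  have h8 := h4.trans (add_le_add_left h5 1)
  rw [h7] at h8
  exact absurd hF (not_lt.2 h8)

theorem big_field (hV : ℵ₀ ≤ Module.rank F V)
    (hF : Cardinal.lift.{u} (Module.rank F V) < Cardinal.lift.{v} #F)
    {H : Subgroup (V ≃ₗ[F] V)} (hH : HP H) : H = ⊤ := by
  obtain ⟨U, hU, hU'⟩ := exists_big (F := F) (V := V) hV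
  have hS : Module.rank F U = Module.rank F (ℤ →₀ U) := by
    rw [rank_finsupp, hU.eq, Cardinal.mk_int, Cardinal.lift_aleph0, Cardinal.lift_id'.{0, v},
      Cardinal.aleph0_mul_eq hV]
  let e : U ≃ₗ[F] (ℤ →₀ U) := LinearEquiv.ofRankEq _ _ hS
  let g : U ≃ₗ[F] U := e ≪≫ₗ shift F U ≪≫ₗ e.symm
  obtain ⟨h, hh, hg⟩ := hH U hU hU' g
  have hmap : U.map (h : V →ₗ[F] V) = U := by
    apply le_antisymm
    · rintro _ ⟨u, hu, rfl⟩
      have h1 : h u = g ⟨u, hu⟩ := hg ⟨u, hu⟩
      change h u ∈ U
      rw [h1]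
      exact Subtype.mem _
    · intro u hu
      refine ⟨g.symm ⟨u, hu⟩, Subtype.mem _, ?_⟩
      change h _ = u
      rw [hg, LinearEquiv.apply_symm_apply]
  obtain ⟨c, hc, hc'⟩ := exists_not_eig hV hF (rank_quotient_le U)
    ((Submodule.Quotient.equiv U U h hmap : (V ⧸ U) ≃ₗ[F] V ⧸ U) : (V ⧸ U) →ₗ[F] V ⧸ U)
  have hA : ∀ v, h v - c • v ∈ U → v ∈ U := by
    intro v hv
    have h1 : U.mkQ v = 0 := by
      apply hc'
      change U.mkQ (h v) = c • U.mkQ v
      rw [← map_smul, ← sub_eq_zero, ← map_sub]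
      exact (Submodule.Quotient.mk_eq_zero U).2 hv
    exact (Submodule.Quotient.mk_eq_zero U).1 h1
  -- the evaluation at `c`
  let χ₀ : (ℤ →₀ U) →ₗ[F] U := Finsupp.lsum ℕ fun n : ℤ => (c ^ n) • (LinearMap.id : U →ₗ[F] U)
  have hχ₀ : ∀ (n : ℤ) (x : U), χ₀ (Finsupp.single n x) = (c ^ n) • x := by
    intro n x
    simp [χ₀]
  have hχs : ∀ s, χ₀ (shift F U s) = c • χ₀ s := by
    intro s
    have h1 : χ₀.comp (shift F U : (ℤ →₀ U) →ₗ[F] (ℤ →₀ U)) = c • χ₀ := by
      apply Finsupp.lhom_ext
      intro n x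
      rw [LinearMap.comp_apply, LinearMap.smul_apply]
      change χ₀ (shift F U (Finsupp.single n x)) = _
      rw [shift_single, hχ₀, hχ₀, smul_smul, zpow_add_one₀ hc, mul_comm]
    exact congrArg (fun t => t s) h1
  let χ : U →ₗ[F] U := χ₀.comp (e : U →ₗ[F] (ℤ →₀ U))
  have hχg : ∀ u, χ (g u) = c • χ u := by
    intro u
    change χ₀ (e (e.symm (shift F U (e u)))) = c • χ₀ (e u)
    rw [LinearEquiv.apply_symm_apply, hχs]
  have hχsurj : Function.Surjective χ := by
    intro x
    refine ⟨e.symm (Finsupp.single 0 x), ?_⟩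
    change χ₀ (e (e.symm (Finsupp.single 0 x))) = x
    rw [LinearEquiv.apply_symm_apply, hχ₀, zpow_zero, one_smul]
  set R := LinearMap.range ((h : V →ₗ[F] V) - c • LinearMap.id) with hR
  have hker : R.comap U.subtype ≤ LinearMap.ker χ := by
    rintro u ⟨v, hv⟩
    have hv1 : h v - c • v = u := hv
    have hvU : v ∈ U := hA v (by rw [hv1]; exact u.2)
    have h1 : u = g ⟨v, hvU⟩ - c • ⟨v, hvU⟩ := by
      apply Subtype.ext
      rw [Submodule.coe_sub, ← hg]
      exact hv1.symm
    rw [LinearMap.mem_ker, h1, map_sub, hχg, map_smul, sub_self]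
  have hRc : Cb R := by
    unfold Cb
    calc Module.rank F V = Module.rank F U := hU.eq.symm
      _ = Module.rank F (LinearMap.range χ) := (rank_range_of_surjective χ hχsurj).symm
      _ = Module.rank F (U ⧸ LinearMap.ker χ) := (χ.quotKerEquivRange.rank_eq).symm
      _ ≤ Module.rank F (U ⧸ R.comap U.subtype) :=
        LinearMap.rank_le_of_surjective (Submodule.factor hker) (Submodule.factor_surjective hker)
      _ ≤ Module.rank F (V ⧸ R) := by
        refine LinearMap.rank_le_of_injective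
          (Submodule.mapQ (R.comap U.subtype) R U.subtype le_rfl) ?_
        refine (injective_iff_map_eq_zero _).2 fun q hq => ?_
        obtain ⟨u, rfl⟩ := Submodule.mkQ_surjective _ q
        have h1 : R.mkQ (u : V) = 0 := hq
        exact (Submodule.Quotient.mk_eq_zero _).2 ((Submodule.Quotient.mk_eq_zero R).1 h1)
  have hRb : Bg R := by
    unfold Bg
    let L : U →ₗ[F] V := (((h : V →ₗ[F] V) - c • LinearMap.id).comp U.subtype).comp
      ((e.symm : (ℤ →₀ U) →ₗ[F] U).comp (Finsupp.lsingle 0))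
    have hL : Function.Injective L := by
      refine (injective_iff_map_eq_zero _).2 fun x hx => ?_
      have h1 : h (e.symm (Finsupp.single 0 x) : V) - c • (e.symm (Finsupp.single 0 x) : V) = 0 := hx
      rw [hg] at h1
      have h2 : g (e.symm (Finsupp.single 0 x)) - c • e.symm (Finsupp.single 0 x) = 0 :=
        Subtype.ext h1
      have h3 : e (g (e.symm (Finsupp.single 0 x)) - c • e.symm (Finsupp.single 0 x)) = 0 := by
        rw [h2, map_zero]
      rw [map_sub, map_smul, LinearEquiv.apply_symm_apply] at h3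
      have h4 : e (g (e.symm (Finsupp.single 0 x))) = Finsupp.single (0 + 1) x := by
        change e (e.symm (shift F U (e (e.symm (Finsupp.single 0 x))))) = _
        rw [LinearEquiv.apply_symm_apply, LinearEquiv.apply_symm_apply, shift_single]
      rw [h4] at h3
      have h5 := congrArg (fun s : ℤ →₀ U => s 1) h3
      simpa using h5
    calc Module.rank F V = Module.rank F U := hU.eq.symm
      _ = Module.rank F (LinearMap.range L) := (rank_range_of_injective L hL).symm
      _ ≤ Module.rank F R := by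
        refine Submodule.rank_mono ?_
        rintro _ ⟨x, rfl⟩
        exact ⟨_, rfl⟩
  exact core hV hH hh hRb hRc

end big

end Pool.Agent.U685.GLP
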