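import Pool.Agent.U685.GLP.Main

/-!
# The core: one element `h` with `h - c` of large range
-/

set_option autoImplicit false

namespace Pool.Agent.U685.GLP

open Cardinal Submodule

universe u v

section core
variable {F : Type u} {V : Type v} [Field F] [AddCommGroup V] [Module F V]

theorem inv_lift {Z : Submodule F V} {n : V ≃ₗ[F] V} {a : Z ≃ₗ[F] Z} (h : ∀ z : Z, n z = a z)
    (z : Z) : n⁻¹ z = a⁻¹ z := by
  change n.symm z = a.symm z
  rw [LinearEquiv.symm_apply_eq, h, LinearEquiv.apply_symm_apply]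

theorem inv_mod {Z : Submodule F V} {n : V ≃ₗ[F] V} {a : Z ≃ₗ[F] Z} (h : ∀ z : Z, n z = a z)
    (h' : ∀ v, n v - v ∈ Z) (v : V) : n⁻¹ v - v ∈ Z := by
  have h1 : n⁻¹ v - v = -n⁻¹ (n v - v) := by
    rw [map_sub]
    change n.symm v - v = -(n.symm (n v) - n.symm v)
    rw [LinearEquiv.symm_apply_apply]
    abel
  rw [h1]
  refine Submodule.neg_mem _ ?_
  have h2 := inv_lift h ⟨_, h' v⟩
  have h3 : n⁻¹ (n v - v) = ((a⁻¹ ⟨_, h' v⟩ : Z) : V) := h2
  rw [h3]
  exact Subtype.mem _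

/-- the group of the restrictions to `Z` of the elements of `H` that are `1` modulo `Z` -/
def nGrp (H : Subgroup (V ≃ₗ[F] V)) (Z : Submodule F V) : Subgroup (Z ≃ₗ[F] Z) where
  carrier := {a | ∃ n ∈ H, (∀ z : Z, n z = a z) ∧ ∀ v, n v - v ∈ Z}
  mul_mem' := by
    rintro a b ⟨n, hn, h1, h2⟩ ⟨m, hm, h3, h4⟩
    refine ⟨n * m, H.mul_mem hn hm, fun z => ?_, fun v => ?_⟩
    · rw [LinearEquiv.mul_apply, h3, h1]
      rfl
    · rw [LinearEquiv.mul_apply]
      have : n (m v) - v = (n (m v) - m v) + (m v - v) := by abel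
      rw [this]
      exact Submodule.add_mem _ (h2 _) (h4 _)
  one_mem' := ⟨1, H.one_mem, fun z => rfl, fun v => by
    change v - v ∈ Z
    rw [sub_self]
    exact Z.zero_mem⟩
  inv_mem' := by
    rintro a ⟨n, hn, h1, h2⟩
    exact ⟨n⁻¹, H.inv_mem hn, inv_lift h1, inv_mod h1 h2⟩

theorem nGrp_normal {H : Subgroup (V ≃ₗ[F] V)} (hH : HP H) {Z : Submodule F V} (hZ : Bg Z)
    (hZ' : Cb Z) (x a : Z ≃ₗ[F] Z) (ha : a ∈ nGrp H Z) : x * a * x⁻¹ ∈ nGrp H Z := by
  obtain ⟨n, hn, h1, h2⟩ := ha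
  obtain ⟨y, hy, h3⟩ := hH Z hZ hZ' x
  refine ⟨y * n * y⁻¹, H.mul_mem (H.mul_mem hy hn) (H.inv_mem hy), fun z => ?_, fun v => ?_⟩
  · rw [LinearEquiv.mul_apply, LinearEquiv.mul_apply, inv_lift h3, h1, h3]
    rfl
  · have h4 : (y * n * y⁻¹) v - v = y (n (y⁻¹ v) - y⁻¹ v) := by
      rw [map_sub, LinearEquiv.mul_apply, LinearEquiv.mul_apply]
      congr 1
      exact (y.apply_symm_apply v).symm
    rw [h4]
    have h5 := h3 ⟨_, h2 (y⁻¹ v)⟩
    have h6 : y (n (y⁻¹ v) - y⁻¹ v) = (x ⟨_, h2 (y⁻¹ v)⟩ : Z) := h5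
    rw [h6]
    exact Subtype.mem _

/-- from full `nGrp` for one large `Z` to large unipotents -/
theorem hasU_of_nGrp (hV : ℵ₀ ≤ Module.rank F V) {H : Subgroup (V ≃ₗ[F] V)} (hH : HP H)
    {Z : Submodule F V} (hZ : Bg Z) (hZ' : Cb Z)
    (hN : ∀ a : Z ≃ₗ[F] Z, ∃ n ∈ H, (∀ z : Z, n z = a z) ∧ ∀ v, n v - v ∈ Z) : HasU H Z := by
  -- `a₀` with `a₀ - 1` invertible
  have hZr : ℵ₀ ≤ Module.rank F Z := hZ.eq ▸ hV
  obtain ⟨e⟩ := sq (F := F) hZr
  obtain ⟨a₀, b₀, hab⟩ : ∃ a₀ b₀ : Z ≃ₗ[F] Z, ∀ z, b₀ z = a₀ z - z := by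
    refine ⟨e ≪≫ₗ eA LinearMap.id ≪≫ₗ e.symm,
      e ≪≫ₗ eB (-LinearMap.id) ≪≫ₗ e.symm, fun z => ?_⟩
    apply e.injective
    rw [map_sub]
    simp only [LinearEquiv.trans_apply, LinearEquiv.apply_symm_apply]
    obtain ⟨w, rfl⟩ := e.symm.surjective z
    rw [LinearEquiv.apply_symm_apply]
    obtain ⟨x, y⟩ := w
    simp only [eA, eB, LinearEquiv.coe_mk, LinearMap.coe_mk, AddHom.coe_mk]
    ext
    · simp
    · simp
      abel
  obtain ⟨z₀, hz₀, h1, h2⟩ := hN a₀
  let W : Submodule F V := LinearMap.ker ((z₀ : V →ₗ[F] V) - LinearMap.id)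
  have hW : ∀ w ∈ W, z₀ w = w := fun w hw => sub_eq_zero.1 hw
  have hW' : ∀ w, z₀ w = w → w ∈ W := fun w hw => sub_eq_zero.2 hw
  have hc : IsCompl W Z := by
    constructor
    · rw [Submodule.disjoint_def]
      intro w hw hw2
      have h3 : b₀ ⟨w, hw2⟩ = 0 := by
        rw [hab]
        apply Subtype.ext
        rw [Submodule.coe_sub, ← h1]
        change z₀ w - w = 0
        rw [hW w hw, sub_self]
      rw [LinearEquiv.map_eq_zero_iff] at h3
      exact congrArg Subtype.val h3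
    · rw [codisjoint_iff, eq_top_iff]
      intro v _
      rw [Submodule.mem_sup]
      let z : Z := b₀.symm ⟨_, h2 v⟩
      have h3 : b₀ z = ⟨_, h2 v⟩ := b₀.apply_symm_apply _
      have h4 : z₀ v - v = z₀ z - z := by
        rw [h1]
        have := congrArg Subtype.val h3
        rw [hab, Submodule.coe_sub] at this
        exact this.symm
      refine ⟨v - z, hW' _ ?_, z, z.2, by abel⟩
      rw [map_sub, sub_eq_sub_iff_sub_eq_sub]
      exact h4
  have hWb : Bg W := hZ'.compl hc.symm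
  have hWr : ℵ₀ ≤ Module.rank F W := hWb.eq ▸ hV
  -- the additive group
  have hl : ∀ (a : Z ≃ₗ[F] Z) (f : W →ₗ[F] Z), f ∈ dGrp H hc →
      (a : Z →ₗ[F] Z).comp f ∈ dGrp H hc := by
    intro a f hf
    rw [mem_dGrp] at hf ⊢
    obtain ⟨n, hn, h3, h4⟩ := hN a
    have h5 : n * tv (ex hc f) (ex_nil hc f).sq * n⁻¹ =
        tv (ex hc ((a : Z →ₗ[F] Z).comp f)) (ex_nil hc _).sq := by
      rw [mul_inv_eq_iff_eq_mul]
      ext v
      rw [LinearEquiv.mul_apply, LinearEquiv.mul_apply, tv_apply, tv_apply, map_add]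
      congr 1
      have h6 : n (ex hc f v) = a (f (W.projectionOnto Z hc v)) := h3 _
      rw [h6, ex_apply]
      have h7 : W.projectionOnto Z hc (n v) = W.projectionOnto Z hc v := by
        rw [← sub_eq_zero, ← map_sub]
        exact (Submodule.projectionOnto_apply_eq_zero_iff hc).2 (h4 v)
      rw [h7]
      rfl
    rw [← h5]
    exact H.mul_mem (H.mul_mem hn hf) (H.inv_mem hn)
  -- prescribed on a large subspace
  have hpre : ∀ X : Submodule F W, Bg X → Cb X → ∀ ε : X →ₗ[F] Z, ∃ f ∈ dGrp H hc,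
      ∀ x : X, f x = ε x := by
    intro X hX hX' ε
    obtain ⟨X', hXX'⟩ := Submodule.exists_isCompl X
    have hX'b : Bg X' := hX'.compl hXX'
    let X₁ : Submodule F V := X.map W.subtype
    let X₂ : Submodule F V := X'.map W.subtype
    have hX₁W : X₁ ≤ W := Submodule.map_subtype_le _ _
    have hX₂W : X₂ ≤ W := Submodule.map_subtype_le _ _
    have hX₁ : Bg X₁ := by
      unfold Bg
      rw [rank_map_eq W.injective_subtype, hX.eq, hWb.eq]
    have hX₂ : Bg X₂ := by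
      unfold Bg
      rw [rank_map_eq W.injective_subtype, hX'b.eq, hWb.eq]
    let i : X ≃ₗ[F] X₁ := X.equivMapOfInjective W.subtype W.injective_subtype
    have hi : ∀ x : X, (i x : V) = ((x : W) : V) := fun x => rfl
    have hd : Disjoint X₁ Z := hc.disjoint.mono_left hX₁W
    let ε₁ : X₁ →ₗ[F] Z :=
      (-((b₀.symm : Z →ₗ[F] Z).comp ((a₀ : Z →ₗ[F] Z).comp (ε.comp (i.symm : X₁ →ₗ[F] X)))))
    obtain ⟨E, hE, hE'⟩ := mkE hd ε₁
    let U : Submodule F V := X₁ ⊔ Z
    have hUb : Bg U := hZ.mono le_sup_right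
    have hUc : Cb U := by
      refine hX₂.disj ?_
      rw [Submodule.disjoint_def]
      intro v hv hv2
      rw [Submodule.mem_sup] at hv2
      obtain ⟨x, hx, z, hz, rfl⟩ := hv2
      have h6 : z ∈ W := by
        have : z = (x + z) - x := by abel
        rw [this]
        exact Submodule.sub_mem _ (hX₂W hv) (hX₁W hx)
      have h7 : z = 0 := Submodule.disjoint_def.1 hc.disjoint z h6 hz
      rw [h7, add_zero] at hv ⊢
      obtain ⟨p, hp, hp'⟩ := hx
      obtain ⟨q, hq, hq'⟩ := hv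
      have h8 : p = q := Subtype.ext (hp'.trans hq'.symm)
      have h9 := Submodule.disjoint_def.1 hXX'.disjoint p hp (h8 ▸ hq)
      rw [← hp', h9, map_zero]
    have hmap : U.map ((tv E hE.sq : V ≃ₗ[F] V) : V →ₗ[F] V) = U := by
      apply le_antisymm
      · rintro _ ⟨v, hv, rfl⟩
        change v + E v ∈ U
        exact Submodule.add_mem _ hv (Submodule.mem_sup_right (hE.1 v))
      · intro v hv
        refine ⟨v - E v, Submodule.sub_mem _ hv (Submodule.mem_sup_right (hE.1 v)), ?_⟩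
        change (v - E v) + E (v - E v) = v
        rw [map_sub, hE.sq]
        abel
    obtain ⟨y, hy, hy'⟩ := hH U hUb hUc (LinearEquiv.ofSubmodules (tv E hE.sq) U U hmap)
    have hyU : ∀ v ∈ U, y v = v + E v := fun v hv => hy' ⟨v, hv⟩
    have hyZ : ∀ v ∈ Z, y v = v := by
      intro v hv
      rw [hyU v (Submodule.mem_sup_right hv), hE.2 v hv, add_zero]
    have hyZ' : ∀ v ∈ Z, y⁻¹ v = v := by
      intro v hv
      change y.symm v = v
      rw [LinearEquiv.symm_apply_eq, hyZ v hv]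
    have hz₀Z : ∀ v ∈ Z, z₀ v ∈ Z := by
      intro v hv
      have h6 : z₀ v = a₀ ⟨v, hv⟩ := h1 ⟨v, hv⟩
      rw [h6]
      exact Subtype.mem _
    have hz₀Z' : ∀ v ∈ Z, z₀⁻¹ v ∈ Z := by
      intro v hv
      have h6 : z₀⁻¹ v = (a₀⁻¹ ⟨v, hv⟩ : Z) := inv_lift h1 ⟨v, hv⟩
      rw [h6]
      exact Subtype.mem _
    let n : V ≃ₗ[F] V := z₀⁻¹ * (y * (z₀ * y⁻¹))
    have hn : n ∈ H := H.mul_mem (H.inv_mem hz₀) (H.mul_mem hy (H.mul_mem hz₀ (H.inv_mem hy)))
    have hnv : ∀ v, n v = z₀⁻¹ (y (z₀ (y⁻¹ v))) := fun v => rfl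
    have hnZ : ∀ v ∈ Z, n v = v := by
      intro v hv
      rw [hnv, hyZ' v hv, hyZ _ (hz₀Z v hv)]
      exact z₀.symm_apply_apply v
    have hnm : ∀ v, n v - v ∈ Z := by
      intro v
      have h6 : z₀ (y⁻¹ v) = y⁻¹ v + (z₀ (y⁻¹ v) - y⁻¹ v) := by abel
      have h7 : y (z₀ (y⁻¹ v)) = v + (z₀ (y⁻¹ v) - y⁻¹ v) := by
        rw [h6, map_add, hyZ _ (h2 _)]
        congr 1
        · exact y.apply_symm_apply v
        · abel
      rw [hnv, h7, map_add]
      have h8 : z₀⁻¹ v + z₀⁻¹ (z₀ (y⁻¹ v) - y⁻¹ v) - v =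
          (z₀⁻¹ v - v) + z₀⁻¹ (z₀ (y⁻¹ v) - y⁻¹ v) := by abel
      rw [h8]
      exact Submodule.add_mem _ (inv_mod h1 h2 v) (hz₀Z' _ (h2 _))
    have hnx : ∀ x : X, n ((x : W) : V) = ((x : W) : V) + ε x := by
      intro x
      have hxU : ((x : W) : V) ∈ X₁ := ⟨x, x.2, rfl⟩
      -- `t = E x`
      have hEx : E ((x : W) : V) = -((b₀.symm (a₀ (ε x)) : Z) : V) := by
        have h6 := hE' (i x)
        rw [hi] at h6
        rw [h6]
        change ((-(b₀.symm (a₀ (ε (i.symm (i x))))) : Z) : V) = _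
        rw [LinearEquiv.symm_apply_apply]
        rfl
      set s : Z := b₀.symm (a₀ (ε x)) with hs
      have hbs : b₀ s = a₀ (ε x) := b₀.apply_symm_apply _
      have h6 : y⁻¹ ((x : W) : V) = ((x : W) : V) + s := by
        change y.symm _ = _
        rw [LinearEquiv.symm_apply_eq, map_add, hyU _ (Submodule.mem_sup_left hxU),
          hyZ _ s.2, hEx]
        abel
      have h7 : z₀ (((x : W) : V) + s) = ((x : W) : V) + a₀ s := by
        rw [map_add, hW _ (x : W).2, h1]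
      have h8 : y (((x : W) : V) + a₀ s) = ((x : W) : V) + (b₀ s : Z) := by
        rw [map_add, hyU _ (Submodule.mem_sup_left hxU), hyZ _ (a₀ s).2, hEx, hab,
          Submodule.coe_sub]
        abel
      rw [hnv, h6, h7, h8, hbs]
      change z₀.symm _ = _
      rw [LinearEquiv.symm_apply_eq, map_add, hW _ (x : W).2, h1]
    refine ⟨((((n : V →ₗ[F] V) - LinearMap.id).comp W.subtype).codRestrict Z
      (fun w => hnm w)), ?_, fun x => ?_⟩
    · rw [mem_dGrp]
      have h6 : tv (ex hc ((((n : V →ₗ[F] V) - LinearMap.id).comp W.subtype).codRestrict Z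
          (fun w => hnm w))) (ex_nil hc _).sq = n := by
        ext v
        obtain ⟨w, z, rfl, _⟩ := Submodule.existsUnique_add_of_isCompl hc v
        rw [tv_apply, ex_add, map_add n, hnZ z z.2]
        change (w : V) + (z : V) + (n w - w) = n w + z
        abel
      rw [h6]
      exact hn
    · apply Subtype.ext
      change n ((x : W) : V) - ((x : W) : V) = ε x
      rw [hnx]
      abel
  -- an injective element of the additive group
  obtain ⟨f₃, hf₃, hinj⟩ : ∃ f ∈ dGrp H hc, Function.Injective f := by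
    obtain ⟨X₁, hX₁, hX₁'⟩ := exists_big (F := F) (V := W) hWr
    let ε₁ : X₁ ≃ₗ[F] Z := LinearEquiv.ofRankEq _ _ (hX₁.eq.trans (hWb.eq.trans hZ.eq.symm))
    obtain ⟨f₁, hf₁, hf₁'⟩ := hpre X₁ hX₁ hX₁' ε₁
    have hK : ∀ x ∈ X₁, f₁ x = 0 → x = 0 := by
      intro x hx h3
      have h4 := hf₁' ⟨x, hx⟩
      rw [h3] at h4
      have h5 : ε₁ ⟨x, hx⟩ = 0 := h4.symm
      rw [LinearEquiv.map_eq_zero_iff] at h5
      exact congrArg Subtype.val h5
    obtain ⟨A, B, hA, hB, -, hAB, hAb, hBb⟩ := hX₁.halve hWr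
    let X₂ : Submodule F W := LinearMap.ker f₁ ⊔ A
    have hX₂ : Bg X₂ := hAb.mono le_sup_right
    have hX₂' : Cb X₂ := by
      refine hBb.disj ?_
      rw [Submodule.disjoint_def]
      intro v hv hv2
      rw [Submodule.mem_sup] at hv2
      obtain ⟨k, hk, a, ha, rfl⟩ := hv2
      have h6 : k ∈ X₁ := by
        have : k = (k + a) - a := by abel
        rw [this]
        exact Submodule.sub_mem _ (hB hv) (hA ha)
      have h7 : k = 0 := hK k h6 hk
      rw [h7, zero_add] at hv ⊢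
      exact Submodule.disjoint_def.1 hAB a ha hv
    let ε₂ : X₂ ≃ₗ[F] Z := LinearEquiv.ofRankEq _ _ (hX₂.eq.trans (hWb.eq.trans hZ.eq.symm))
    obtain ⟨f₂, hf₂, hf₂'⟩ := hpre X₂ hX₂ hX₂' ε₂
    refine ⟨((e.symm : Z × Z →ₗ[F] Z).comp (LinearMap.inl F Z Z)).comp f₁ +
      ((e.symm : Z × Z →ₗ[F] Z).comp (LinearMap.inr F Z Z)).comp f₂,
      (dGrp H hc).add_mem (left_end hZr _ hl _ _ hf₁) (left_end hZr _ hl _ _ hf₂), ?_⟩
    refine (injective_iff_map_eq_zero _).2 fun w hw => ?_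
    have h3 : e.symm (f₁ w, f₂ w) = 0 := by
      have h4 : e.symm (f₁ w, 0) + e.symm (0, f₂ w) = 0 := hw
      rw [← map_add] at h4
      simpa using h4
    rw [LinearEquiv.map_eq_zero_iff] at h3
    have h4 : f₁ w = 0 := congrArg Prod.fst h3
    have h5 : f₂ w = 0 := congrArg Prod.snd h3
    have h6 : w ∈ X₂ := Submodule.mem_sup_left h4
    have h7 := hf₂' ⟨w, h6⟩
    rw [h5] at h7
    have h8 : ε₂ ⟨w, h6⟩ = 0 := h7.symm
    rw [LinearEquiv.map_eq_zero_iff] at h8
    exact congrArg Subtype.val h8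
  obtain ⟨l, hl'⟩ := LinearMap.exists_leftInverse_of_injective f₃ (LinearMap.ker_eq_bot.2 hinj)
  intro E hE
  obtain ⟨f, rfl⟩ := eq_ex hc hE
  have h3 := left_end hZr _ hl (f.comp l) _ hf₃
  rw [LinearMap.comp_assoc, hl', LinearMap.comp_id] at h3
  exact h3

/-- **Core theorem.** -/
theorem core (hV : ℵ₀ ≤ Module.rank F V) {H : Subgroup (V ≃ₗ[F] V)} (hH : HP H)
    {h : V ≃ₗ[F] V} (hh : h ∈ H) {c : F}
    (h1 : Bg (LinearMap.range ((h : V →ₗ[F] V) - c • LinearMap.id)))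
    (h2 : Cb (LinearMap.range ((h : V →ₗ[F] V) - c • LinearMap.id))) : H = ⊤ := by
  set R := LinearMap.range ((h : V →ₗ[F] V) - c • LinearMap.id) with hR
  have hs : ∀ c' : F, Module.rank F V ≤
      Module.rank F (LinearMap.range ((h : V →ₗ[F] V) - c' • LinearMap.id)) := by
    intro c'
    by_cases hcc : c' = c
    · rw [hcc]
      exact h1
    · refine le_trans h2 ?_
      refine LinearMap.rank_le_of_surjective
        (R.mkQ.comp (LinearMap.range ((h : V →ₗ[F] V) - c' • LinearMap.id)).subtype) ?_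
      intro q
      obtain ⟨v, rfl⟩ := R.mkQ_surjective q
      have hne : c - c' ≠ 0 := sub_ne_zero.2 (Ne.symm hcc)
      obtain ⟨u, hu⟩ : ∃ u : V, v = c • u - c' • u :=
        ⟨(c - c')⁻¹ • v, by rw [← sub_smul, smul_smul, mul_inv_cancel₀ hne, one_smul]⟩
      refine ⟨⟨_, ⟨u, rfl⟩⟩, ?_⟩
      change R.mkQ (h u - c' • u) = R.mkQ v
      have h3 : h u - c' • u - (c • u - c' • u) ∈ R := by
        refine ⟨u, ?_⟩
        change h u - c • u = _
        abel
      rw [hu, ← sub_eq_zero, ← map_sub]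
      exact (Submodule.Quotient.mk_eq_zero R).2 h3
  obtain ⟨X₀, hX₀, hX₀'⟩ := exists_disj hV h hs
  obtain ⟨X, hX1, hX2, hX3⟩ := shrink hV LinearMap.id h2 hX₀
  rw [Submodule.map_id] at hX3
  set Z : Submodule F V := R ⊔ X with hZdef
  have hZb : Bg Z := hX2.mono le_sup_right
  have hmod : ∀ v, h v - c • v ∈ Z := fun v => Submodule.mem_sup_left ⟨v, rfl⟩
  have hc0 : c ≠ 0 := by
    intro hc0
    have h3 : R = ⊤ := by
      rw [hR, hc0, zero_smul, sub_zero]
      exact LinearEquiv.range h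
    have h4 := h2
    unfold Cb at h4
    rw [h3] at h4
    have h5 : Module.rank F (V ⧸ (⊤ : Submodule F V)) = 0 := by
      rw [rank_subsingleton']
    rw [h5] at h4
    exact absurd (hV.trans h4) (not_le.2 Cardinal.aleph0_pos)
  have hmapZ : Z.map (h : V →ₗ[F] V) = Z := by
    apply le_antisymm
    · rintro _ ⟨z, hz, rfl⟩
      have : h z = (h z - c • z) + c • z := by abel
      change h z ∈ Z
      rw [this]
      exact Submodule.add_mem _ (hmod z) (Submodule.smul_mem _ _ hz)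
    · intro z hz
      refine ⟨h.symm z, ?_, h.apply_symm_apply z⟩
      have h3 := hmod (h.symm z)
      rw [LinearEquiv.apply_symm_apply] at h3
      have h4 : c • h.symm z ∈ Z := by
        have : c • h.symm z = z - (z - c • h.symm z) := by abel
        rw [this]
        exact Submodule.sub_mem _ hz h3
      have h5 := Submodule.smul_mem _ c⁻¹ h4
      rwa [smul_smul, inv_mul_cancel₀ hc0, one_smul] at h5
  let g' : Z ≃ₗ[F] Z := LinearEquiv.ofSubmodules h Z Z hmapZ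
  have hg' : ∀ z : Z, h z = g' z := fun z => rfl
  have hN : ∀ a : Z ≃ₗ[F] Z, a ∈ nGrp H Z := by
    have hZr : ℵ₀ ≤ Module.rank F Z := hZb.eq ▸ hV
    have hXZ : X ≤ Z := le_sup_right
    refine comm_gen hZr (nGrp H Z) (fun x a ha => nGrp_normal hH hZb hX3 x a ha) g' ?_
      (comap_bg hXZ hX2) ?_
    · intro y
      obtain ⟨x, hx, hx'⟩ := hH Z hZb hX3 y
      refine ⟨h * x * h⁻¹ * x⁻¹, H.mul_mem (H.mul_mem (H.mul_mem hh hx) (H.inv_mem hh))
        (H.inv_mem hx), fun z => ?_, fun v => ?_⟩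
      · rw [LinearEquiv.mul_apply, LinearEquiv.mul_apply, LinearEquiv.mul_apply, inv_lift hx',
          inv_lift hg', hx', hg']
        rfl
      · set w := h⁻¹ (x⁻¹ v) with hw
        have h3 : v = x (h w) := by
          rw [hw]
          have h4 : h (h⁻¹ (x⁻¹ v)) = x⁻¹ v := h.apply_symm_apply _
          rw [h4]
          exact (x.apply_symm_apply v).symm
        have h4 : (h * x * h⁻¹ * x⁻¹) v = h (x w) := rfl
        have h5 : (h * x * h⁻¹ * x⁻¹) v - v = (h (x w) - c • x w) - x (h w - c • w) := by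
          rw [h4, map_sub, map_smul, ← h3]
          abel
        rw [h5]
        refine Submodule.sub_mem _ (hmod _) ?_
        have h6 : x (h w - c • w) = (y ⟨_, hmod w⟩ : Z) := hx' ⟨_, hmod w⟩
        rw [h6]
        exact Subtype.mem _
    · rw [Submodule.disjoint_def]
      rintro _ h3 ⟨z, hz, rfl⟩
      apply Subtype.ext
      refine Submodule.disjoint_def.1 hX₀' _ (hX1 h3) ?_
      exact ⟨z, hX1 hz, rfl⟩
  have hZU : HasU H Z := hasU_of_nGrp hV hH hZb hX3 hN
  rw [eq_top_iff]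
  intro g _
  refine gen hV H (fun U hU hU' => ?_) g
  obtain ⟨x, hx, rfl⟩ := tr hV hH hZb hX3 hU hU'
  exact hZU.map x fun g hg => H.mul_mem (H.mul_mem hx hg) (H.inv_mem hx)

end core

end Pool.Agent.U685.GLP
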