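import Pool.Agent.U685.GLP.Units

/-!
# Generation of `GL(V)` by the large unipotent maps
-/

set_option autoImplicit false

namespace Pool.Agent.U685.GLP

open Cardinal Submodule

universe u v

section gen
variable {F : Type u} {V : Type v} [Field F] [AddCommGroup V] [Module F V]

theorem mkE {P Q : Submodule F V} (hd : Disjoint P Q) (f : P →ₗ[F] Q) :
    ∃ E : V →ₗ[F] V, Nil Q E ∧ ∀ p : P, E p = f p := by
  obtain ⟨R, h1, h2⟩ := hd.symm.exists_isCompl
  refine ⟨Q.subtype.comp (f.comp (P.projectionOnto R h2.symm)), ⟨fun v => ?_, fun u hu => ?_⟩,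
    fun p => ?_⟩
  · exact (f (P.projectionOnto R h2.symm v)).2
  · simp only [LinearMap.comp_apply]
    rw [(Submodule.projectionOnto_apply_eq_zero_iff h2.symm).2 (h1 hu)]
    simp
  · simp only [LinearMap.comp_apply]
    rw [Submodule.projectionOnto_apply_left]
    rfl

section wh
variable {X C : Type v} [AddCommGroup X] [Module F X] [AddCommGroup C] [Module F C]

/-- `(a, b, c) ↦ (x b, 0, 0)` -/
def m12 (φ : V ≃ₗ[F] (X × X) × C) (x : X →ₗ[F] X) : V →ₗ[F] V :=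
  (φ.symm : (X × X) × C →ₗ[F] V).comp ((LinearMap.inl F (X × X) C).comp
    ((LinearMap.inl F X X).comp (x.comp ((LinearMap.snd F X X).comp
      ((LinearMap.fst F (X × X) C).comp (φ : V →ₗ[F] (X × X) × C))))))

/-- `(a, b, c) ↦ (0, x a, 0)` -/
def m21 (φ : V ≃ₗ[F] (X × X) × C) (x : X →ₗ[F] X) : V →ₗ[F] V :=
  (φ.symm : (X × X) × C →ₗ[F] V).comp ((LinearMap.inl F (X × X) C).comp
    ((LinearMap.inr F X X).comp (x.comp ((LinearMap.fst F X X).comp
      ((LinearMap.fst F (X × X) C).comp (φ : V →ₗ[F] (X × X) × C))))))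

theorem m12_apply (φ : V ≃ₗ[F] (X × X) × C) (x : X →ₗ[F] X) (v : V) :
    m12 φ x v = φ.symm ((x (φ v).1.2, 0), 0) := rfl

theorem m21_apply (φ : V ≃ₗ[F] (X × X) × C) (x : X →ₗ[F] X) (v : V) :
    m21 φ x v = φ.symm ((0, x (φ v).1.1), 0) := rfl

/-- the first summand -/
def s1 (φ : V ≃ₗ[F] (X × X) × C) : Submodule F V :=
  LinearMap.range ((φ.symm : (X × X) × C →ₗ[F] V).comp ((LinearMap.inl F (X × X) C).comp
    (LinearMap.inl F X X)))

/-- the second summand -/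
def s2 (φ : V ≃ₗ[F] (X × X) × C) : Submodule F V :=
  LinearMap.range ((φ.symm : (X × X) × C →ₗ[F] V).comp ((LinearMap.inl F (X × X) C).comp
    (LinearMap.inr F X X)))

theorem s1_inj (φ : V ≃ₗ[F] (X × X) × C) : Function.Injective
    ((φ.symm : (X × X) × C →ₗ[F] V).comp ((LinearMap.inl F (X × X) C).comp
      (LinearMap.inl F X X))) := by
  intro a b hab
  have := φ.symm.injective hab
  simpa using this

theorem s2_inj (φ : V ≃ₗ[F] (X × X) × C) : Function.Injective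
    ((φ.symm : (X × X) × C →ₗ[F] V).comp ((LinearMap.inl F (X × X) C).comp
      (LinearMap.inr F X X))) := by
  intro a b hab
  have := φ.symm.injective hab
  simpa using this

theorem s_disj (φ : V ≃ₗ[F] (X × X) × C) : Disjoint (s1 φ) (s2 φ) := by
  rw [Submodule.disjoint_def]
  rintro x ⟨a, ha⟩ ⟨b, hb⟩
  have h1 : φ.symm ((a, 0), 0) = φ.symm ((0, b), 0) := ha.trans hb.symm
  have h2 := φ.symm.injective h1
  have h3 : a = 0 := congrArg (fun z => z.1.1) h2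
  rw [← ha, h3, map_zero]

theorem s1_big (φ : V ≃ₗ[F] (X × X) × C) (hX : Module.rank F X = Module.rank F V) : Bg (s1 φ) := by
  unfold Bg s1
  rw [rank_range_of_injective _ (s1_inj φ), hX]

theorem s2_big (φ : V ≃ₗ[F] (X × X) × C) (hX : Module.rank F X = Module.rank F V) : Bg (s2 φ) := by
  unfold Bg s2
  rw [rank_range_of_injective _ (s2_inj φ), hX]

theorem m12_nil (φ : V ≃ₗ[F] (X × X) × C) (x : X →ₗ[F] X) : Nil (s1 φ) (m12 φ x) := by
  refine ⟨fun v => ⟨x (φ v).1.2, rfl⟩, ?_⟩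
  rintro _ ⟨a, rfl⟩
  rw [m12_apply]
  simp

theorem m21_nil (φ : V ≃ₗ[F] (X × X) × C) (x : X →ₗ[F] X) : Nil (s2 φ) (m21 φ x) := by
  refine ⟨fun v => ⟨x (φ v).1.1, rfl⟩, ?_⟩
  rintro _ ⟨a, rfl⟩
  rw [m21_apply]
  simp

theorem t12_apply (φ : V ≃ₗ[F] (X × X) × C) (x : X →ₗ[F] X) (h : ∀ v, m12 φ x (m12 φ x v) = 0)
    (a b : X) (c : C) : tv (m12 φ x) h (φ.symm ((a, b), c)) = φ.symm ((a + x b, b), c) := by
  rw [tv_apply, m12_apply, ← map_add]
  simp

theorem t21_apply (φ : V ≃ₗ[F] (X × X) × C) (x : X →ₗ[F] X) (h : ∀ v, m21 φ x (m21 φ x v) = 0)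
    (a b : X) (c : C) : tv (m21 φ x) h (φ.symm ((a, b), c)) = φ.symm ((a, b + x a), c) := by
  rw [tv_apply, m21_apply, ← map_add]
  simp

/-- Whitehead's lemma -/
theorem wh (G : Subgroup (V ≃ₗ[F] V)) (hG : ∀ U, Bg U → Cb U → HasU G U)
    (hX : Module.rank F X = Module.rank F V) (φ : V ≃ₗ[F] (X × X) × C) (b : X ≃ₗ[F] X) :
    ∃ s ∈ G, ∀ x y c, s (φ.symm ((x, y), c)) = φ.symm ((b x, b.symm y), c) := by
  have h12 : ∀ x : X →ₗ[F] X, tv (m12 φ x) (m12_nil φ x).sq ∈ G := fun x =>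
    hG _ (s1_big φ hX) ((s2_big φ hX).disj (s_disj φ).symm) _ (m12_nil φ x)
  have h21 : ∀ x : X →ₗ[F] X, tv (m21 φ x) (m21_nil φ x).sq ∈ G := fun x =>
    hG _ (s2_big φ hX) ((s1_big φ hX).disj (s_disj φ)) _ (m21_nil φ x)
  refine ⟨tv (m12 φ b) (m12_nil φ _).sq * (tv (m21 φ (-b.symm)) (m21_nil φ _).sq *
    (tv (m12 φ b) (m12_nil φ _).sq * (tv (m12 φ (-LinearMap.id)) (m12_nil φ _).sq *
    (tv (m21 φ LinearMap.id) (m21_nil φ _).sq * tv (m12 φ (-LinearMap.id)) (m12_nil φ _).sq)))), ?_,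
    fun x y c => ?_⟩
  · exact G.mul_mem (h12 _) (G.mul_mem (h21 _) (G.mul_mem (h12 _) (G.mul_mem (h12 _)
      (G.mul_mem (h21 _) (h12 _)))))
  · simp only [LinearEquiv.mul_apply, t12_apply, t21_apply]
    congr 1
    simp

end wh

section swindle
variable {B : Type v} [AddCommGroup B] [Module F B]

/-- `ℕ + 1 = ℕ` -/
def nu : ℕ ⊕ Unit ≃ ℕ := Equiv.natSumPUnitEquivNat

/-- `B^(ℕ) × B ≃ B^(ℕ)` -/
noncomputable def cons : ((ℕ →₀ B) × B) ≃ₗ[F] (ℕ →₀ B) :=
  ((LinearEquiv.refl F (ℕ →₀ B)).prodCongr (Finsupp.uniqueLinearEquiv F B ()).symm) ≪≫ₗ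
    (Finsupp.sumFinsuppLEquivProdFinsupp F).symm ≪≫ₗ
    Finsupp.domLCongr nu

theorem cons_equiv (d : B ≃ₗ[F] B) (b : B) (s : ℕ →₀ B) :
    cons (F := F) (Finsupp.mapRange.linearEquiv d s, d b) =
      Finsupp.mapRange.linearEquiv d (cons (F := F) (s, b)) := by
  ext n
  simp only [cons, LinearEquiv.trans_apply, LinearEquiv.prodCongr_apply, Finsupp.domLCongr_apply]
  obtain ⟨m, rfl⟩ := nu.surjective n
  rcases m with m | m
  · simp
  · simp

end swindle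

/-- the swindle: `1` on `A`, `d` on `B` -/
theorem sw (hV : ℵ₀ ≤ Module.rank F V) (G : Subgroup (V ≃ₗ[F] V))
    (hG : ∀ U, Bg U → Cb U → HasU G U) {A B : Submodule F V} (hc : IsCompl A B) (hA : Bg A)
    (hB : Bg B) (d : B ≃ₗ[F] B) :
    ∃ s ∈ G, (∀ a : A, s a = a) ∧ ∀ b : B, s b = d b := by
  have hS : Module.rank F (ℕ →₀ B) = Module.rank F V := by
    rw [rank_finsupp, hB.eq, Cardinal.mk_nat, Cardinal.lift_aleph0, Cardinal.lift_id'.{0, v},
      Cardinal.aleph0_mul_eq hV]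
  have hSS : Module.rank F A = Module.rank F ((ℕ →₀ B) × (ℕ →₀ B)) := by
    rw [rank_prod', hS, hA.eq, Cardinal.add_eq_self hV]
  let ψ : A ≃ₗ[F] (ℕ →₀ B) × (ℕ →₀ B) := LinearEquiv.ofRankEq _ _ hSS
  let π : (A × B) ≃ₗ[F] V := Submodule.prodEquivOfIsCompl A B hc
  -- `V ≃ (S × S) × B`
  let φ₂ : V ≃ₗ[F] ((ℕ →₀ B) × (ℕ →₀ B)) × B := π.symm ≪≫ₗ (ψ.prodCongr (LinearEquiv.refl F B))
  let χ : (((ℕ →₀ B) × (ℕ →₀ B)) × B) ≃ₗ[F] ((ℕ →₀ B) × (ℕ →₀ B)) × PUnit.{v + 1} :=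
    { toFun := fun z => ((cons (F := F) (z.1.1, z.2), z.1.2), PUnit.unit)
      invFun := fun z => ((((cons (F := F)).symm z.1.1).1, z.1.2), ((cons (F := F)).symm z.1.1).2)
      left_inv := fun z => by simp
      right_inv := fun z => by simp
      map_add' := fun a b => by
        ext : 1
        · ext : 1
          · change cons (F := F) (a.1.1 + b.1.1, a.2 + b.2) = cons (F := F) (a.1.1, a.2) +
              cons (F := F) (b.1.1, b.2)
            rw [← map_add]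
            rfl
          · rfl
        · rfl
      map_smul' := fun c a => by
        ext : 1
        · ext : 1
          · change cons (F := F) (c • a.1.1, c • a.2) = c • cons (F := F) (a.1.1, a.2)
            rw [← map_smul]
            rfl
          · rfl
        · rfl }
  let D : (ℕ →₀ B) ≃ₗ[F] (ℕ →₀ B) := Finsupp.mapRange.linearEquiv d
  obtain ⟨g₁, h1, h2⟩ := wh G hG hS (φ₂ ≪≫ₗ χ) D
  obtain ⟨g₂, h3, h4⟩ := wh G hG hS φ₂ D
  have key : ∀ (s s' : ℕ →₀ B) (b : B), (g₁ * g₂⁻¹) (φ₂.symm ((s, s'), b)) =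
      φ₂.symm ((s, s'), d b) := by
    intro s s' b
    have h5 : g₂⁻¹ (φ₂.symm ((s, s'), b)) = φ₂.symm ((D.symm s, D s'), b) := by
      change g₂.symm _ = _
      rw [LinearEquiv.symm_apply_eq, h4]
      simp
    rw [LinearEquiv.mul_apply, h5]
    have h6 : φ₂.symm ((D.symm s, D s'), b) =
        (φ₂ ≪≫ₗ χ).symm ((cons (F := F) (D.symm s, b), D s'), PUnit.unit) := by
      rw [LinearEquiv.eq_symm_apply, LinearEquiv.trans_apply, LinearEquiv.apply_symm_apply]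
      rfl
    rw [h6, h2, LinearEquiv.symm_apply_apply]
    have h7 : D (cons (F := F) (D.symm s, b)) = cons (F := F) (s, d b) := by
      rw [← cons_equiv d b (D.symm s)]
      change cons (F := F) (D (D.symm s), d b) = _
      rw [LinearEquiv.apply_symm_apply]
    rw [h7, LinearEquiv.symm_apply_eq, LinearEquiv.trans_apply, LinearEquiv.apply_symm_apply]
    rfl
  have hφ : ∀ (a : A) (b : B), (φ₂.symm (ψ a, b)) = (a : V) + b := by
    intro a b
    rw [LinearEquiv.symm_apply_eq]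
    change _ = (ψ.prodCongr (LinearEquiv.refl F B)) (π.symm ((a : V) + b))
    have : π.symm ((a : V) + b) = (a, b) := by
      rw [LinearEquiv.symm_apply_eq]
      rfl
    rw [this]
    rfl
  refine ⟨g₁ * g₂⁻¹, G.mul_mem h1 (G.inv_mem h3), fun a => ?_, fun b => ?_⟩
  · have h5 := hφ a 0
    rw [Submodule.coe_zero, add_zero] at h5
    rw [← h5]
    have h6 := key (ψ a).1 (ψ a).2 0
    rw [map_zero] at h6
    exact h6
  · have h5 := hφ 0 b
    have h6 := hφ 0 (d b)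
    rw [Submodule.coe_zero, zero_add] at h5 h6
    rw [← h5, ← h6]
    exact key (ψ 0).1 (ψ 0).2 b

/-- maps that fix a large subspace pointwise -/
theorem fixA (hV : ℵ₀ ≤ Module.rank F V) (G : Subgroup (V ≃ₗ[F] V))
    (hG : ∀ U, Bg U → Cb U → HasU G U) {A : Submodule F V} (hA : Bg A) (hA' : Cb A)
    (t : V ≃ₗ[F] V) (ht : ∀ a ∈ A, t a = a) : t ∈ G := by
  obtain ⟨B, hB⟩ := Submodule.exists_isCompl A
  have hmap : A.map (t : V →ₗ[F] V) = A := by
    apply le_antisymm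
    · rintro _ ⟨a, ha, rfl⟩
      change t a ∈ A
      rw [ht a ha]
      exact ha
    · intro a ha
      exact ⟨a, ha, ht a ha⟩
  let q := Submodule.quotientEquivOfIsCompl A B hB
  let d : B ≃ₗ[F] B := q.symm ≪≫ₗ (Submodule.Quotient.equiv A A t hmap) ≪≫ₗ q
  have hd : ∀ b : B, (d b : V) = B.projectionOnto A hB.symm (t b) := fun b => rfl
  obtain ⟨s, hs, h1, h2⟩ := sw hV G hG hB hA (hA'.compl hB) d
  have hs' : ∀ a ∈ A, s⁻¹ a = a := by
    intro a ha
    change s.symm a = a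
    rw [LinearEquiv.symm_apply_eq]
    exact (h1 ⟨a, ha⟩).symm
  let E : V →ₗ[F] V := ((s⁻¹ * t : V ≃ₗ[F] V) : V →ₗ[F] V) - LinearMap.id
  have hE : Nil A E := by
    constructor
    · intro v
      have h3 : t v - s v ∈ A := by
        have h4 : ∃ a : A, ∃ b : B, (a : V) + b = v := by
          obtain ⟨a, b, h, _⟩ := Submodule.existsUnique_add_of_isCompl hB v
          exact ⟨a, b, h⟩
        obtain ⟨a, b, rfl⟩ := h4
        rw [map_add, map_add, h1, ht a a.2, h2, hd, add_sub_add_left_eq_sub,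
          Submodule.coe_projectionOnto_apply]
        exact Submodule.sub_projection_mem hB.symm (t b)
      have h5 : E v = s⁻¹ (t v - s v) := by
        rw [map_sub]
        change s⁻¹ (t v) - v = s⁻¹ (t v) - s.symm (s v)
        rw [LinearEquiv.symm_apply_apply]
      rw [h5, hs' _ h3]
      exact h3
    · intro a ha
      change s⁻¹ (t a) - a = 0
      rw [ht a ha, hs' a ha, sub_self]
  have h6 : t = s * tv E hE.sq := by
    ext v
    change t v = s (v + (s⁻¹ (t v) - v))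
    rw [add_sub_cancel]
    change t v = s (s.symm (t v))
    rw [LinearEquiv.apply_symm_apply]
  rw [h6]
  exact G.mul_mem hs (hG A hA hA' E hE)

/-- **Generation.** A subgroup that contains all large unipotent maps is `GL(V)`. -/
theorem gen (hV : ℵ₀ ≤ Module.rank F V) (G : Subgroup (V ≃ₗ[F] V))
    (hG : ∀ U, Bg U → Cb U → HasU G U) (g : V ≃ₗ[F] V) : g ∈ G := by
  obtain ⟨A0, hA0, hA0'⟩ := exists_big (F := F) (V := V) hV
  obtain ⟨A, hA, hb, hc⟩ := shrink hV (g : V →ₗ[F] V) hA0' hA0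
  obtain ⟨C, hC⟩ := Submodule.exists_isCompl (A0 ⊔ A.map (g : V →ₗ[F] V))
  have hCb : Bg C := hc.compl hC
  have hgA : Bg (A.map (g : V →ₗ[F] V)) := hb.map g
  have hCc : Cb C := by
    refine hgA.disj ?_
    exact hC.disjoint.mono_left le_sup_right
  let ψ : A.map (g : V →ₗ[F] V) ≃ₗ[F] C := LinearEquiv.ofRankEq _ _ (hgA.eq.trans hCb.eq.symm)
  obtain ⟨E₁, hE₁, h1⟩ := mkE (hC.disjoint.mono_left le_sup_right) (ψ : _ →ₗ[F] C)
  have hy : ∀ (a : V) (ha : a ∈ A), (tv E₁ hE₁.sq * g) a = g a + ψ ⟨g a, ⟨a, ha, rfl⟩⟩ := by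
    intro a ha
    rw [LinearEquiv.mul_apply, tv_apply]
    congr 1
    exact h1 ⟨g a, ⟨a, ha, rfl⟩⟩
  have hdis : Disjoint (A.map ((tv E₁ hE₁.sq * g : V ≃ₗ[F] V) : V →ₗ[F] V)) A := by
    rw [Submodule.disjoint_def]
    rintro _ ⟨a, ha, rfl⟩ h2
    have h3 : (tv E₁ hE₁.sq * g) a = g a + ψ ⟨g a, ⟨a, ha, rfl⟩⟩ := hy a ha
    have h4 : (ψ ⟨g a, ⟨a, ha, rfl⟩⟩ : V) ∈ A0 ⊔ A.map (g : V →ₗ[F] V) := by
      have h5 : (ψ ⟨g a, ⟨a, ha, rfl⟩⟩ : V) = (tv E₁ hE₁.sq * g) a - g a := by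
        rw [h3, add_sub_cancel_left]
      rw [h5]
      exact Submodule.sub_mem _ (Submodule.mem_sup_left (hA h2))
        (Submodule.mem_sup_right ⟨a, ha, rfl⟩)
    have h6 := Submodule.disjoint_def.1 hC.disjoint _ h4 (ψ _).2
    have h7 : ψ ⟨g a, ⟨a, ha, rfl⟩⟩ = 0 := Subtype.ext h6
    rw [LinearEquiv.map_eq_zero_iff] at h7
    have h8 : g a = 0 := congrArg Subtype.val h7
    have h9 : a = 0 := g.map_eq_zero_iff.1 h8
    rw [h9, map_zero]
  set y : V ≃ₗ[F] V := tv E₁ hE₁.sq * g with hydef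
  have hyA : Bg (A.map (y : V →ₗ[F] V)) := hb.map y
  have hAc : Cb A := hA0'.anti hA
  have hyAc : Cb (A.map (y : V →ₗ[F] V)) := hAc.map y
  let θ : A ≃ₗ[F] A.map (y : V →ₗ[F] V) := y.submoduleMap A
  have hθ : ∀ a : A, (θ a : V) = y a := fun a => rfl
  obtain ⟨E₂, hE₂, h2⟩ := mkE hdis (θ.symm : _ →ₗ[F] A)
  obtain ⟨E₃, hE₃, h3⟩ := mkE hdis.symm (-(θ : A →ₗ[F] _))
  have ht : ∀ a ∈ A, (tv E₃ hE₃.sq * (tv E₂ hE₂.sq * y)) a = a := by
    intro a ha
    have h4 : E₂ (y a) = a := by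
      have := h2 (θ ⟨a, ha⟩)
      rw [hθ] at this
      rw [this]
      change ((θ.symm (θ ⟨a, ha⟩) : A) : V) = a
      rw [LinearEquiv.symm_apply_apply]
    have h5 : E₃ a = - y a := by
      have := h3 ⟨a, ha⟩
      rw [this]
      rfl
    have h6 : E₃ (y a) = 0 := hE₃.2 _ ⟨a, ha, rfl⟩
    rw [LinearEquiv.mul_apply, LinearEquiv.mul_apply, tv_apply, tv_apply, h4, map_add, h5, h6]
    abel
  have h4 := fixA hV G hG hb hAc _ ht
  have h5 : tv E₃ hE₃.sq ∈ G := hG _ hyA hyAc _ hE₃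
  have h6 : tv E₂ hE₂.sq ∈ G := hG _ hb hAc _ hE₂
  have h7 : tv E₁ hE₁.sq ∈ G := hG _ hCb hCc _ hE₁
  rw [Subgroup.mul_mem_cancel_left G h5, Subgroup.mul_mem_cancel_left G h6, hydef,
    Subgroup.mul_mem_cancel_left G h7] at h4
  exact h4

end gen

end Pool.Agent.U685.GLP
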