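import Pool.Agent.U685.GLP.Nrm

/-!
# The main theorem
-/

set_option autoImplicit false

namespace Pool.Agent.U685.GLP

open Cardinal Submodule

universe u v

section main
variable {F : Type u} {V : Type v} [Field F] [AddCommGroup V] [Module F V]

/-- `H` induces `GL(U)` on every large subspace `U` -/
def HP (H : Subgroup (V ≃ₗ[F] V)) : Prop :=
  ∀ U : Submodule F V, Bg U → Cb U → ∀ g : U ≃ₗ[F] U, ∃ h ∈ H, ∀ u : U, h u = g u

theorem comap_bg {P U : Submodule F V} (hPU : P ≤ U) (hP : Bg P) : Bg (P.comap U.subtype) := by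
  unfold Bg
  rw [(Submodule.comapSubtypeEquivOfLe hPU).rank_eq]
  exact (Submodule.rank_le U).trans hP

theorem comap_disj {P Q U : Submodule F V} (h : Disjoint P Q) :
    Disjoint (P.comap U.subtype) (Q.comap U.subtype) := by
  rw [Submodule.disjoint_def]
  intro x hx hy
  exact Subtype.ext (Submodule.disjoint_def.1 h _ hx hy)

theorem tr1 (hV : ℵ₀ ≤ Module.rank F V) {H : Subgroup (V ≃ₗ[F] V)} (hH : HP H)
    {P Q : Submodule F V} (hP : Bg P) (hQ : Bg Q) (hPQ : Cb (P ⊔ Q)) :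
    ∃ x ∈ H, P.map (x : V →ₗ[F] V) = Q := by
  obtain ⟨C, hC⟩ := Submodule.exists_isCompl (P ⊔ Q)
  obtain ⟨C₁, C₂, h1, h2, -, h3, h4, h5⟩ := (hPQ.compl hC).halve hV
  set U : Submodule F V := P ⊔ Q ⊔ C₁ with hU
  have hPU : P ≤ U := le_sup_left.trans le_sup_left
  have hQU : Q ≤ U := le_sup_right.trans le_sup_left
  have hCU : C₁ ≤ U := le_sup_right
  have hUb : Bg U := hP.mono hPU
  have hUc : Cb U := by
    refine h5.disj ?_
    rw [Submodule.disjoint_def]
    intro v hv hv2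
    rw [Submodule.mem_sup] at hv2
    obtain ⟨a, ha, b, hb, rfl⟩ := hv2
    have h6 : a ∈ C := by
      have : a = (a + b) - b := by abel
      rw [this]
      exact Submodule.sub_mem _ (h2 hv) (h1 hb)
    have h7 : a = 0 := Submodule.disjoint_def.1 hC.disjoint a ha h6
    rw [h7, zero_add] at hv ⊢
    exact Submodule.disjoint_def.1 h3 b hb hv
  have hdP : Disjoint C₁ P := (hC.disjoint.mono le_sup_left h1).symm
  have hdQ : Disjoint C₁ Q := (hC.disjoint.mono le_sup_right h1).symm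
  have hC' := comap_bg hCU h4
  obtain ⟨x₀, hx₀⟩ := trans_big (comap_bg hPU hP) (hC'.disj (comap_disj hdP))
    (comap_bg hQU hQ) (hC'.disj (comap_disj hdQ))
  obtain ⟨x, hx, hx'⟩ := hH U hUb hUc x₀
  refine ⟨x, hx, le_antisymm ?_ ?_⟩
  · rintro _ ⟨p, hp, rfl⟩
    have h6 : x p = x₀ ⟨p, hPU hp⟩ := hx' ⟨p, hPU hp⟩
    have h7 : x₀ ⟨p, hPU hp⟩ ∈ Q.comap U.subtype := by
      rw [← hx₀]
      exact ⟨_, hp, rfl⟩
    change x p ∈ Q
    rw [h6]
    exact h7
  · intro q hq
    have h7 : (⟨q, hQU hq⟩ : U) ∈ Q.comap U.subtype := hq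
    rw [← hx₀] at h7
    obtain ⟨p, hp, hp'⟩ := h7
    refine ⟨p, hp, ?_⟩
    change x p = q
    rw [hx' p]
    exact congrArg Subtype.val hp'

/-- `H` is transitive on the large subspaces -/
theorem tr (hV : ℵ₀ ≤ Module.rank F V) {H : Subgroup (V ≃ₗ[F] V)} (hH : HP H)
    {P Q : Submodule F V} (hP : Bg P) (hP' : Cb P) (hQ : Bg Q) (hQ' : Cb Q) :
    ∃ x ∈ H, P.map (x : V →ₗ[F] V) = Q := by
  obtain ⟨A, h1, h2, h3⟩ := shrink hV LinearMap.id hQ' hP
  rw [Submodule.map_id] at h3
  have h4 : P ⊔ A = P := sup_eq_left.2 h1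
  obtain ⟨x, hx, hx'⟩ := tr1 hV hH hP h2 (by rw [h4]; exact hP')
  obtain ⟨y, hy, hy'⟩ := tr1 hV hH h2 hQ (by rw [sup_comm]; exact h3)
  refine ⟨y * x, H.mul_mem hy hx, ?_⟩
  rw [← hy', ← hx', ← Submodule.map_comp]
  rfl

/-- a map that is locally scalar modulo a small subspace is scalar modulo this subspace -/
theorem scal (Y : Submodule F V) (h : V →ₗ[F] V) (hY : ∀ v, v ∉ Y → ∃ c : F, h v - c • v ∈ Y)
    (v₀ : V) (hv₀ : v₀ ∉ Y) (u : V) (hu : u ∉ Y ⊔ F ∙ v₀) : ∃ c : F, ∀ v, h v - c • v ∈ Y := by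
  obtain ⟨c₀, hc₀⟩ := hY v₀ hv₀
  have key : ∀ w, w ∉ Y ⊔ F ∙ v₀ → h w - c₀ • w ∈ Y := by
    intro w hw
    have hwY : w ∉ Y := fun h1 => hw (Submodule.mem_sup_left h1)
    obtain ⟨c, hc⟩ := hY w hwY
    have h1 : w + v₀ ∉ Y := by
      intro h2
      apply hw
      have : w = (w + v₀) + (-1 : F) • v₀ := by simp
      rw [this]
      exact Submodule.add_mem _ (Submodule.mem_sup_left h2)
        (Submodule.mem_sup_right (Submodule.smul_mem _ _ (Submodule.mem_span_singleton_self v₀)))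
    obtain ⟨c', hc'⟩ := hY _ h1
    have h2 : (c - c') • w + (c₀ - c') • v₀ ∈ Y := by
      have : (c - c') • w + (c₀ - c') • v₀ = (h (w + v₀) - c' • (w + v₀)) - (h w - c • w) -
          (h v₀ - c₀ • v₀) := by
        rw [map_add, smul_add, sub_smul, sub_smul]
        abel
      rw [this]
      exact Submodule.sub_mem _ (Submodule.sub_mem _ hc' hc) hc₀
    have h3 : c = c' := by
      by_contra h4
      apply hw
      have h5 : c - c' ≠ 0 := sub_ne_zero.2 h4
      have h6 : w = (c - c')⁻¹ • ((c - c') • w + (c₀ - c') • v₀) +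
          (-((c - c')⁻¹ * (c₀ - c'))) • v₀ := by
        rw [smul_add, smul_smul, inv_mul_cancel₀ h5, one_smul, smul_smul, neg_smul]
        abel
      rw [h6]
      exact Submodule.add_mem _ (Submodule.mem_sup_left (Submodule.smul_mem _ _ h2))
        (Submodule.mem_sup_right (Submodule.smul_mem _ _ (Submodule.mem_span_singleton_self v₀)))
    have h4 : c₀ = c' := by
      by_contra h5
      apply hv₀
      rw [h3, sub_self, zero_smul, zero_add] at h2
      have h6 : c₀ - c' ≠ 0 := sub_ne_zero.2 h5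
      have h7 := Submodule.smul_mem _ (c₀ - c')⁻¹ h2
      rwa [smul_smul, inv_mul_cancel₀ h6, one_smul] at h7
    rw [h4, ← h3]
    exact hc
  refine ⟨c₀, fun v => ?_⟩
  by_cases hv : v ∈ Y ⊔ F ∙ v₀
  · have h1 : v + u ∉ Y ⊔ F ∙ v₀ := by
      intro h2
      apply hu
      have : u = (v + u) - v := by abel
      rw [this]
      exact Submodule.sub_mem _ h2 hv
    have h2 := Submodule.sub_mem _ (key _ h1) (key u hu)
    have h3 : h v - c₀ • v = h (v + u) - c₀ • (v + u) - (h u - c₀ • u) := by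
      rw [map_add, smul_add]
      abel
    rw [h3]
    exact h2
  · exact key v hv

/-- a map which is nowhere a scalar plus a small map moves a big subspace to a disjoint one -/
theorem exists_disj (hV : ℵ₀ ≤ Module.rank F V) (h : V ≃ₗ[F] V)
    (hs : ∀ c : F, Module.rank F V ≤
      Module.rank F (LinearMap.range ((h : V →ₗ[F] V) - c • LinearMap.id))) :
    ∃ X : Submodule F V, Bg X ∧ Disjoint X (X.map (h : V →ₗ[F] V)) := by
  obtain ⟨X, hX⟩ := zorn_le₀ {X : Submodule F V | Disjoint X (X.map (h : V →ₗ[F] V))} (by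
    intro c hc hchain
    by_cases hne : c.Nonempty
    · refine ⟨sSup c, ?_, fun z hz => le_sSup hz⟩
      have hdir : DirectedOn (· ≤ ·) c := hchain.directedOn
      rw [Set.mem_ofPred_eq, Submodule.disjoint_def]
      rintro _ h1 ⟨y, hy, rfl⟩
      obtain ⟨X₁, hX₁, h2⟩ := (Submodule.mem_sSup_of_directed hne hdir).1 h1
      obtain ⟨X₂, hX₂, h3⟩ := (Submodule.mem_sSup_of_directed hne hdir).1 hy
      obtain ⟨X₃, hX₃, h4, h5⟩ := hdir X₁ hX₁ X₂ hX₂
      exact Submodule.disjoint_def.1 (hc hX₃) _ (h4 h2) ⟨y, h5 h3, rfl⟩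
    · refine ⟨⊥, ?_, fun z hz => absurd ⟨z, hz⟩ hne⟩
      rw [Set.mem_ofPred_eq]
      exact disjoint_bot_left)
  refine ⟨X, ?_, hX.1⟩
  by_contra hnb
  have hsm : Module.rank F X < Module.rank F V := not_le.1 hnb
  set Y : Submodule F V := X ⊔ X.map (h : V →ₗ[F] V) with hYdef
  have hYs : Module.rank F Y < Module.rank F V := by
    refine lt_of_le_of_lt (Submodule.rank_add_le_rank_add_rank _ _) ?_
    refine Cardinal.add_lt_of_lt hV hsm ?_
    rw [LinearEquiv.rank_map_eq]
    exact hsm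
  have hloc : ∀ v, v ∉ Y → ∃ c : F, (h : V →ₗ[F] V) v - c • v ∈ Y := by
    intro v hv
    have hvX : v ∉ X := fun h1 => hv (Submodule.mem_sup_left h1)
    have h1 : ¬ Disjoint (X ⊔ F ∙ v) ((X ⊔ F ∙ v).map (h : V →ₗ[F] V)) := by
      intro h2
      have h3 : X ⊔ F ∙ v ≤ X := hX.2 h2 le_sup_left
      exact hvX (h3 (Submodule.mem_sup_right (Submodule.mem_span_singleton_self v)))
    rw [Submodule.disjoint_def] at h1
    push Not at h1
    obtain ⟨z, hz, ⟨z', hz', h2⟩, hz0⟩ := h1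
    rw [Submodule.mem_sup] at hz
    rw [SetLike.mem_coe, Submodule.mem_sup] at hz'
    obtain ⟨x, hx, _, ha, rfl⟩ := hz
    obtain ⟨x', hx', _, hb, rfl⟩ := hz'
    obtain ⟨a, rfl⟩ := Submodule.mem_span_singleton.1 ha
    obtain ⟨b, rfl⟩ := Submodule.mem_span_singleton.1 hb
    have h3 : h x' + b • h v = x + a • v := by
      rw [← h2]
      change h x' + b • h v = h (x' + b • v)
      rw [map_add, map_smul]
    by_cases hb0 : b = 0
    · exfalso
      rw [hb0, zero_smul, add_zero] at h3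
      have h4 : a • v ∈ Y := by
        have : a • v = h x' - x := by
          rw [h3]
          abel
        rw [this]
        exact Submodule.sub_mem _ (Submodule.mem_sup_right ⟨x', hx', rfl⟩)
          (Submodule.mem_sup_left hx)
      have h5 : a = 0 := by
        by_contra h6
        apply hv
        have h7 := Submodule.smul_mem _ a⁻¹ h4
        rwa [smul_smul, inv_mul_cancel₀ h6, one_smul] at h7
      rw [h5, zero_smul, add_zero] at h3
      apply hz0
      rw [h5, zero_smul, add_zero]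
      refine Submodule.disjoint_def.1 hX.1 x hx ?_
      rw [← h3]
      exact ⟨x', hx', rfl⟩
    · refine ⟨b⁻¹ * a, ?_⟩
      have h4 : h v - (b⁻¹ * a) • v = b⁻¹ • (x - h x') := by
        have h5 : b • h v = x - h x' + a • v := by
          rw [add_comm] at h3
          rw [eq_sub_of_add_eq h3]
          abel
        have h6 : h v = b⁻¹ • (x - h x' + a • v) := by
          rw [← h5, smul_smul, inv_mul_cancel₀ hb0, one_smul]
        rw [h6, smul_add, smul_smul]
        abel
      change h v - (b⁻¹ * a) • v ∈ Y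
      rw [h4]
      exact Submodule.smul_mem _ _ (Submodule.sub_mem _ (Submodule.mem_sup_left hx)
        (Submodule.mem_sup_right ⟨x', hx', rfl⟩))
  have hYtop : Y ≠ ⊤ := by
    intro h1
    rw [h1, rank_top] at hYs
    exact lt_irrefl _ hYs
  obtain ⟨v₀, -, hv₀⟩ := SetLike.exists_of_lt (lt_top_iff_ne_top.2 hYtop)
  have hY2 : Y ⊔ F ∙ v₀ ≠ ⊤ := by
    intro h1
    have h2 : Module.rank F (Y ⊔ F ∙ v₀ : Submodule F V) < Module.rank F V := by
      refine lt_of_le_of_lt (Submodule.rank_add_le_rank_add_rank _ _) ?_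
      refine Cardinal.add_lt_of_lt hV hYs ?_
      refine lt_of_lt_of_le ?_ hV
      refine lt_of_le_of_lt (rank_span_le _) ?_
      rw [Cardinal.mk_singleton]
      exact Cardinal.one_lt_aleph0
    rw [h1, rank_top] at h2
    exact lt_irrefl _ h2
  obtain ⟨u, -, hu⟩ := SetLike.exists_of_lt (lt_top_iff_ne_top.2 hY2)
  obtain ⟨c, hc⟩ := scal Y (h : V →ₗ[F] V) hloc v₀ hv₀ u hu
  have h1 : LinearMap.range ((h : V →ₗ[F] V) - c • LinearMap.id) ≤ Y := by
    rintro _ ⟨v, rfl⟩
    exact hc v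
  exact absurd ((hs c).trans (Submodule.rank_mono h1)) (not_le.2 hYs)

end main

end Pool.Agent.U685.GLP
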