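import Pool.Agent.U685.GLP.Gen

/-!
# Normal generation
-/

set_option autoImplicit false

namespace Pool.Agent.U685.GLP

open Cardinal Submodule

universe u v

section nrm
variable {F : Type u} {V : Type v} [Field F] [AddCommGroup V] [Module F V]

/-- the extension of a map from a complement `W` to `U` by zero -/
noncomputable def ex {U W : Submodule F V} (hc : IsCompl W U) (f : W →ₗ[F] U) : V →ₗ[F] V :=
  U.subtype.comp (f.comp (W.projectionOnto U hc))

theorem ex_apply {U W : Submodule F V} (hc : IsCompl W U) (f : W →ₗ[F] U) (v : V) :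
    ex hc f v = f (W.projectionOnto U hc v) := rfl

theorem ex_nil {U W : Submodule F V} (hc : IsCompl W U) (f : W →ₗ[F] U) : Nil U (ex hc f) := by
  refine ⟨fun v => (f _).2, fun u hu => ?_⟩
  rw [ex_apply, (Submodule.projectionOnto_apply_eq_zero_iff hc).2 hu]
  simp

theorem ex_W {U W : Submodule F V} (hc : IsCompl W U) (f : W →ₗ[F] U) (w : W) :
    ex hc f w = f w := by
  rw [ex_apply, Submodule.projectionOnto_apply_left]

theorem ex_add {U W : Submodule F V} (hc : IsCompl W U) (f : W →ₗ[F] U) (w : W) (u : U) :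
    ex hc f ((w : V) + u) = f w := by
  rw [map_add, ex_W, (ex_nil hc f).2 _ u.2, add_zero]

/-- every map into `U` that kills `U` is of this form -/
theorem eq_ex {U W : Submodule F V} (hc : IsCompl W U) {E : V →ₗ[F] V} (hE : Nil U E) :
    ∃ f : W →ₗ[F] U, E = ex hc f := by
  refine ⟨(E.comp W.subtype).codRestrict U (fun w => hE.1 _), ?_⟩
  ext v
  rw [ex_apply]
  change E v = E (W.projectionOnto U hc v)
  rw [← sub_eq_zero, ← map_sub]
  refine hE.2 _ ?_
  rw [Submodule.coe_projectionOnto_apply]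
  exact Submodule.sub_projection_mem hc v

/-- the additive group of the maps `f` with `1 + f` in `G` -/
noncomputable def dGrp (G : Subgroup (V ≃ₗ[F] V)) {U W : Submodule F V} (hc : IsCompl W U) :
    AddSubgroup (W →ₗ[F] U) where
  carrier := {f | tv (ex hc f) (ex_nil hc f).sq ∈ G}
  add_mem' := by
    intro f g hf hg
    have : tv (ex hc (f + g)) (ex_nil hc _).sq =
        tv (ex hc f) (ex_nil hc f).sq * tv (ex hc g) (ex_nil hc g).sq := by
      ext v
      rw [LinearEquiv.mul_apply, tv_apply, tv_apply, tv_apply, map_add,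
        (ex_nil hc f).2 _ ((ex_nil hc g).1 v)]
      simp only [ex_apply, LinearMap.add_apply, Submodule.coe_add]
      abel
    change tv (ex hc (f + g)) _ ∈ G
    rw [this]
    exact G.mul_mem hf hg
  zero_mem' := by
    have : tv (ex hc (0 : W →ₗ[F] U)) (ex_nil hc _).sq = 1 := by
      ext v
      rw [tv_apply, ex_apply]
      simp
    change tv (ex hc 0) _ ∈ G
    rw [this]
    exact G.one_mem
  neg_mem' := by
    intro f hf
    have : tv (ex hc (-f)) (ex_nil hc _).sq = (tv (ex hc f) (ex_nil hc f).sq)⁻¹ := by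
      ext v
      rw [tv_apply, tv_inv_apply, ex_apply, ex_apply]
      simp [sub_eq_add_neg]
    change tv (ex hc (-f)) _ ∈ G
    rw [this]
    exact G.inv_mem hf

theorem mem_dGrp {G : Subgroup (V ≃ₗ[F] V)} {U W : Submodule F V} {hc : IsCompl W U}
    {f : W →ₗ[F] U} : f ∈ dGrp G hc ↔ tv (ex hc f) (ex_nil hc f).sq ∈ G := Iff.rfl

theorem HasU.map {G : Subgroup (V ≃ₗ[F] V)} {U : Submodule F V} (h : HasU G U) (x : V ≃ₗ[F] V)
    (hx : ∀ g ∈ G, x * g * x⁻¹ ∈ G) : HasU G (U.map (x : V →ₗ[F] V)) := by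
  intro E hE
  let E' : V →ₗ[F] V := ((x⁻¹ : V ≃ₗ[F] V) : V →ₗ[F] V).comp (E.comp (x : V →ₗ[F] V))
  have hE' : Nil U E' := by
    constructor
    · intro v
      obtain ⟨u, hu, h1⟩ := hE.1 (x v)
      have h2 : E' v = u := by
        change x.symm (E (x v)) = u
        rw [LinearEquiv.symm_apply_eq]
        exact h1.symm
      rw [h2]
      exact hu
    · intro u hu
      change x.symm (E (x u)) = 0
      rw [hE.2 (x u) ⟨u, hu, rfl⟩, map_zero]
  have h1 := hx _ (h E' hE')
  have h2 : x * tv E' hE'.sq * x⁻¹ = tv E hE.sq := by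
    ext v
    rw [LinearEquiv.mul_apply, LinearEquiv.mul_apply, tv_apply, tv_apply]
    change x (x.symm v + x.symm (E (x (x.symm v)))) = _
    rw [LinearEquiv.apply_symm_apply, ← map_add, LinearEquiv.apply_symm_apply]
  rw [← h2]
  exact h1

/-- **Normal generation.** -/
theorem normal_gen (hV : ℵ₀ ≤ Module.rank F V) (G : Subgroup (V ≃ₗ[F] V))
    (hn : ∀ x g, g ∈ G → x * g * x⁻¹ ∈ G) {U : Submodule F V} (hU : Bg U) (hU' : Cb U)
    {E : V →ₗ[F] V} (hE : Nil U E) (hr : Module.rank F V ≤ Module.rank F (LinearMap.range E))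
    (hG : tv E hE.sq ∈ G) (g : V ≃ₗ[F] V) : g ∈ G := by
  obtain ⟨W, hW⟩ := Submodule.exists_isCompl U
  have hc : IsCompl W U := hW.symm
  have hWb : Bg W := hU'.compl hW
  have key : HasU G U := by
    intro E' hE'
    obtain ⟨f, rfl⟩ := eq_ex hc hE'
    obtain ⟨f₀, rfl⟩ := eq_ex hc hE
    refine hom_top (hWb.eq ▸ hV) (hWb.eq.trans hU.eq.symm) (dGrp G hc) ?_ ?_ f₀ hG ?_ f
    · intro a f hf
      rw [mem_dGrp] at hf ⊢
      let x : V ≃ₗ[F] V := (Submodule.prodEquivOfIsCompl W U hc).symm ≪≫ₗ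
        ((LinearEquiv.refl F W).prodCongr a) ≪≫ₗ Submodule.prodEquivOfIsCompl W U hc
      have hx : ∀ (w : W) (u : U), x ((w : V) + u) = (w : V) + a u := by
        intro w u
        have h1 : (w : V) + u = Submodule.prodEquivOfIsCompl W U hc (w, u) := rfl
        simp only [x, LinearEquiv.trans_apply]
        rw [h1, LinearEquiv.symm_apply_apply]
        rfl
      have h1 : x * tv (ex hc f) (ex_nil hc f).sq * x⁻¹ =
          tv (ex hc ((a : U →ₗ[F] U).comp f)) (ex_nil hc _).sq := by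
        rw [mul_inv_eq_iff_eq_mul]
        ext v
        obtain ⟨w, u, rfl, _⟩ := Submodule.existsUnique_add_of_isCompl hc v
        rw [LinearEquiv.mul_apply, LinearEquiv.mul_apply, hx, tv_apply, tv_apply, ex_add, ex_add]
        have h2 : (w : V) + (u : V) + (f w : V) = (w : V) + ((u + f w : U) : V) := by
          rw [Submodule.coe_add]
          abel
        rw [h2, hx, map_add, Submodule.coe_add]
        change (w : V) + ((a u : V) + (a (f w) : V)) = (w : V) + (a u : V) + (a (f w) : V)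
        abel
      rw [← h1]
      exact hn _ _ hf
    · intro d f hf
      rw [mem_dGrp] at hf ⊢
      let x : V ≃ₗ[F] V := (Submodule.prodEquivOfIsCompl W U hc).symm ≪≫ₗ
        (d.symm.prodCongr (LinearEquiv.refl F U)) ≪≫ₗ Submodule.prodEquivOfIsCompl W U hc
      have hx : ∀ (w : W) (u : U), x ((w : V) + u) = (d.symm w : V) + u := by
        intro w u
        have h1 : (w : V) + u = Submodule.prodEquivOfIsCompl W U hc (w, u) := rfl
        simp only [x, LinearEquiv.trans_apply]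
        rw [h1, LinearEquiv.symm_apply_apply]
        rfl
      have h1 : x * tv (ex hc f) (ex_nil hc f).sq * x⁻¹ =
          tv (ex hc (f.comp (d : W →ₗ[F] W))) (ex_nil hc _).sq := by
        rw [mul_inv_eq_iff_eq_mul]
        ext v
        obtain ⟨w, u, rfl, _⟩ := Submodule.existsUnique_add_of_isCompl hc v
        rw [LinearEquiv.mul_apply, LinearEquiv.mul_apply, hx, tv_apply, tv_apply, ex_add, ex_add]
        have h2 : (w : V) + (u : V) + (f w : V) = (w : V) + ((u + f w : U) : V) := by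
          rw [Submodule.coe_add]
          abel
        rw [h2, hx, Submodule.coe_add]
        have h3 : (f.comp (d : W →ₗ[F] W)) (d.symm w) = f w := by
          rw [LinearMap.comp_apply]
          change f (d (d.symm w)) = f w
          rw [LinearEquiv.apply_symm_apply]
        rw [h3]
        abel
      rw [← h1]
      exact hn _ _ hf
    · rw [hWb.eq]
      refine le_trans hr ?_
      have h1 : LinearMap.range (ex hc f₀) ≤ (LinearMap.range f₀).map U.subtype := by
        rintro _ ⟨v, rfl⟩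
        exact ⟨f₀ _, ⟨_, rfl⟩, rfl⟩
      exact (Submodule.rank_mono h1).trans (rank_map_le _ _)
  refine gen hV G (fun U' h1 h2 => ?_) g
  obtain ⟨x, rfl⟩ := trans_big hU hU' h1 h2
  exact key.map x (hn x)

/-- the same for the commutators with one map `g` that moves a big subspace to a disjoint one -/
theorem comm_gen (hV : ℵ₀ ≤ Module.rank F V) (G : Subgroup (V ≃ₗ[F] V))
    (hn : ∀ x g, g ∈ G → x * g * x⁻¹ ∈ G) (g : V ≃ₗ[F] V)
    (hg : ∀ y : V ≃ₗ[F] V, g * y * g⁻¹ * y⁻¹ ∈ G) {X : Submodule F V} (hX : Bg X)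
    (hd : Disjoint X (X.map (g : V →ₗ[F] V))) (t : V ≃ₗ[F] V) : t ∈ G := by
  obtain ⟨X₁, X₂, h1, h2, -, h3, h4, h5⟩ := hX.halve hV
  have hY : Cb (X₁ ⊔ X₁.map (g : V →ₗ[F] V)) := by
    refine h5.disj ?_
    rw [Submodule.disjoint_def]
    intro v hv hv2
    rw [Submodule.mem_sup] at hv2
    obtain ⟨a, ha, _, ⟨b, hb, rfl⟩, rfl⟩ := hv2
    have h6 : g b ∈ X := by
      have : g b = (a + g b) - a := by abel
      rw [this]
      exact Submodule.sub_mem _ (h2 hv) (h1 ha)
    have h7 : g b = 0 := Submodule.disjoint_def.1 hd _ h6 ⟨b, h1 hb, rfl⟩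
    change a + g b = 0
    rw [h7, add_zero]
    refine Submodule.disjoint_def.1 h3 _ ha ?_
    have : a + g b = a := by rw [h7, add_zero]
    rw [← this]
    exact hv
  obtain ⟨A, hA, hAb, hAc⟩ := shrink hV ((g⁻¹ : V ≃ₗ[F] V) : V →ₗ[F] V) hY h4
  set S : Submodule F V := X₁ ⊔ X₁.map (g : V →ₗ[F] V) ⊔
    A.map ((g⁻¹ : V ≃ₗ[F] V) : V →ₗ[F] V) with hS
  let ψ : (V ⧸ S) ≃ₗ[F] A := LinearEquiv.ofRankEq _ _ (hAc.eq.trans hAb.eq.symm)
  let E : V →ₗ[F] V := A.subtype.comp ((ψ : _ →ₗ[F] A).comp S.mkQ)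
  have hEA : ∀ v, E v ∈ A := fun v => (ψ (S.mkQ v)).2
  have hES : ∀ v ∈ S, E v = 0 := by
    intro v hv
    have : S.mkQ v = 0 := by simpa using hv
    change (ψ (S.mkQ v) : V) = 0
    rw [this, map_zero]
    rfl
  have hA1 : A ≤ S := hA.trans (le_sup_left.trans le_sup_left)
  have hA2 : ∀ a ∈ A, g a ∈ S := fun a ha =>
    Submodule.mem_sup_left (Submodule.mem_sup_right ⟨a, hA ha, rfl⟩)
  have hA3 : ∀ a ∈ A, g⁻¹ a ∈ S := fun a ha => Submodule.mem_sup_right ⟨a, ha, rfl⟩
  have hEE : ∀ v, E (E v) = 0 := fun v => hES _ (hA1 (hEA v))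
  let T : V →ₗ[F] V :=
    (g : V →ₗ[F] V).comp (E.comp ((g⁻¹ : V ≃ₗ[F] V) : V →ₗ[F] V)) - E
  have hT : ∀ v, T v = g (E (g⁻¹ v)) - E v := fun v => rfl
  have hTn : Nil (A ⊔ A.map (g : V →ₗ[F] V)) T := by
    constructor
    · intro v
      rw [hT]
      exact Submodule.sub_mem _ (Submodule.mem_sup_right ⟨_, hEA _, rfl⟩)
        (Submodule.mem_sup_left (hEA _))
    · intro u hu
      rw [Submodule.mem_sup] at hu
      obtain ⟨a, ha, _, ⟨b, hb, rfl⟩, rfl⟩ := hu
      have e1 : g⁻¹ (a + g b) = g⁻¹ a + b := by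
        rw [map_add]
        congr 1
        exact g.symm_apply_apply b
      change T (a + g b) = 0
      rw [hT, e1, map_add E (g⁻¹ a) b, map_add E a (g b), hES _ (hA3 a ha), hES a (hA1 ha),
        hES b (hA1 hb), hES _ (hA2 b hb)]
      simp
  have hUc : Cb (A ⊔ A.map (g : V →ₗ[F] V)) := by
    refine hAc.anti (sup_le hA1 ?_)
    rintro _ ⟨a, ha, rfl⟩
    exact hA2 a ha
  have hUb : Bg (A ⊔ A.map (g : V →ₗ[F] V)) := hAb.mono le_sup_left
  have hTG : tv T hTn.sq = g * tv E hEE * g⁻¹ * (tv E hEE)⁻¹ := by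
    ext v
    rw [LinearEquiv.mul_apply, LinearEquiv.mul_apply, LinearEquiv.mul_apply, tv_inv_apply, tv_apply,
      tv_apply, hT, map_sub, map_sub, hES _ (hA3 _ (hEA v)), sub_zero, map_add, map_sub]
    change v + (g (E (g⁻¹ v)) - E v) = g (g.symm v) - g (g.symm (E v)) + g (E (g⁻¹ v))
    rw [LinearEquiv.apply_symm_apply, LinearEquiv.apply_symm_apply]
    abel
  refine normal_gen hV G hn hUb hUc hTn ?_ (hTG ▸ hg _) t
  -- the rank of `T`
  have hdA : Disjoint A (A.map (g : V →ₗ[F] V)) :=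
    hd.mono (hA.trans h1) (Submodule.map_mono (hA.trans h1))
  obtain ⟨R, hR1, hR2⟩ := hdA.symm.exists_isCompl
  let p := A.projectionOnto R hR2.symm
  have hpT : (p.comp T) = -((ψ : _ →ₗ[F] A).comp S.mkQ) := by
    ext v
    have h6 : p (g (E (g⁻¹ v))) = 0 :=
      (Submodule.projectionOnto_apply_eq_zero_iff hR2.symm).2 (hR1 ⟨_, hEA _, rfl⟩)
    have h7 : p (E v) = ψ (S.mkQ v) := Submodule.projectionOnto_apply_left hR2.symm _
    rw [LinearMap.comp_apply, hT, map_sub, h6, h7, zero_sub]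
    rfl
  have hsurj : Function.Surjective (p.comp T) := by
    rw [hpT]
    intro a
    obtain ⟨v, hv⟩ := S.mkQ_surjective (ψ.symm (-a))
    refine ⟨v, ?_⟩
    change -(ψ (S.mkQ v)) = a
    rw [hv, LinearEquiv.apply_symm_apply, neg_neg]
  have h8 : Module.rank F (LinearMap.range (p.comp T)) = Module.rank F V := by
    rw [rank_range_of_surjective _ hsurj, hAb.eq]
  rw [← h8, LinearMap.range_comp]
  exact rank_map_le _ _

end nrm

end Pool.Agent.U685.GLP
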