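import Pool.Agent.U685.GLP.Basic

/-!
# Units of `End(X)` and additive subgroups of `Hom(X, U)`
-/

set_option autoImplicit false

namespace Pool.Agent.U685.GLP

open Cardinal Submodule

universe u v

section units
variable {F : Type u} {X : Type v} [Field F] [AddCommGroup X] [Module F X]

/-- `(x, y) ↦ (p x + y, x)` -/
def eA (p : X →ₗ[F] X) : (X × X) ≃ₗ[F] (X × X) where
  toFun z := (p z.1 + z.2, z.1)
  invFun z := (z.2, z.1 - p z.2)
  left_inv z := by simp
  right_inv z := by simp
  map_add' a b := by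
    ext
    · simp only [Prod.fst_add, Prod.snd_add, map_add]
      abel
    · simp
  map_smul' c a := by
    ext
    · simp [smul_add]
    · simp

/-- `(x, y) ↦ (y, x + s y)` -/
def eB (s : X →ₗ[F] X) : (X × X) ≃ₗ[F] (X × X) where
  toFun z := (z.2, z.1 + s z.2)
  invFun z := (z.2 - s z.1, z.1)
  left_inv z := by simp
  right_inv z := by simp
  map_add' a b := by
    ext
    · simp
    · simp only [Prod.fst_add, Prod.snd_add, map_add]
      abel
  map_smul' c a := by
    ext
    · simp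
    · simp [smul_add]

/-- `(x, y) ↦ (x + t y, y)` -/
def eC (t : X →ₗ[F] X) : (X × X) ≃ₗ[F] (X × X) where
  toFun z := (z.1 + t z.2, z.2)
  invFun z := (z.1 - t z.2, z.2)
  left_inv z := by simp
  right_inv z := by simp
  map_add' a b := by
    ext
    · simp only [Prod.fst_add, Prod.snd_add, map_add]
      abel
    · simp
  map_smul' c a := by
    ext
    · simp [smul_add]
    · simp

/-- `(x, y) ↦ (- x, t x - y)` -/
def eD (t : X →ₗ[F] X) : (X × X) ≃ₗ[F] (X × X) where
  toFun z := (- z.1, t z.1 - z.2)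
  invFun z := (- z.1, - t z.1 - z.2)
  left_inv z := by simp
  right_inv z := by simp
  map_add' a b := by
    ext
    · simp only [Prod.fst_add, neg_add]
    · simp only [Prod.fst_add, Prod.snd_add, map_add]
      abel
  map_smul' c a := by
    ext
    · simp
    · simp [smul_sub]

/-- every endomorphism is a sum of four units -/
theorem units_generate (hX : ℵ₀ ≤ Module.rank F X) (S : AddSubgroup (X →ₗ[F] X))
    (hS : ∀ a : X ≃ₗ[F] X, (a : X →ₗ[F] X) ∈ S) (π : X →ₗ[F] X) : π ∈ S := by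
  obtain ⟨e⟩ := sq (F := F) hX
  let ρ : X × X →ₗ[F] X × X :=
    ((e : X →ₗ[F] X × X).comp π).comp (e.symm : X × X →ₗ[F] X)
  let p : X →ₗ[F] X := ((LinearMap.fst F X X).comp ρ).comp (LinearMap.inl F X X)
  let q : X →ₗ[F] X := ((LinearMap.fst F X X).comp ρ).comp (LinearMap.inr F X X)
  let r : X →ₗ[F] X := ((LinearMap.snd F X X).comp ρ).comp (LinearMap.inl F X X)
  let s : X →ₗ[F] X := ((LinearMap.snd F X X).comp ρ).comp (LinearMap.inr F X X)
  have key : π = ((e ≪≫ₗ eA p ≪≫ₗ e.symm : X ≃ₗ[F] X) : X →ₗ[F] X) +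
      ((e ≪≫ₗ eB s ≪≫ₗ e.symm : X ≃ₗ[F] X) : X →ₗ[F] X) +
      ((e ≪≫ₗ eC (q - 2 • LinearMap.id) ≪≫ₗ e.symm : X ≃ₗ[F] X) : X →ₗ[F] X) +
      ((e ≪≫ₗ eD (r - 2 • LinearMap.id) ≪≫ₗ e.symm : X ≃ₗ[F] X) : X →ₗ[F] X) := by
    ext z
    apply e.injective
    simp only [LinearMap.add_apply, LinearEquiv.coe_coe, LinearEquiv.trans_apply, map_add,
      LinearEquiv.apply_symm_apply]
    obtain ⟨w, rfl⟩ := e.symm.surjective z
    rw [LinearEquiv.apply_symm_apply]
    obtain ⟨x, y⟩ := w
    have h1 : e (π (e.symm (x, y))) = ρ (x, 0) + ρ (0, y) := by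
      rw [← map_add]
      simp [ρ]
    rw [h1]
    have h2 : ρ (x, 0) = (p x, r x) := rfl
    have h3 : ρ (0, y) = (q y, s y) := rfl
    rw [h2, h3]
    simp only [eA, eB, eC, eD, LinearEquiv.coe_mk, LinearMap.coe_mk, AddHom.coe_mk]
    ext
    · simp only [Prod.mk_add_mk, LinearMap.sub_apply, LinearMap.smul_apply, LinearMap.id_apply]
      rw [two_smul]
      abel
    · simp only [Prod.mk_add_mk, LinearMap.sub_apply, LinearMap.smul_apply, LinearMap.id_apply]
      rw [two_smul]
      abel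
  rw [key]
  exact S.add_mem (S.add_mem (S.add_mem (hS _) (hS _)) (hS _)) (hS _)

/-- an additive subgroup of `Hom(X, U)` that is closed under composition with units is closed under
composition with endomorphisms -/
theorem left_end {U : Type v} [AddCommGroup U] [Module F U] (hU : ℵ₀ ≤ Module.rank F U)
    (D : AddSubgroup (X →ₗ[F] U))
    (hl : ∀ (a : U ≃ₗ[F] U) (f : X →ₗ[F] U), f ∈ D → (a : U →ₗ[F] U).comp f ∈ D)
    (π : U →ₗ[F] U) (f : X →ₗ[F] U) (hf : f ∈ D) : π.comp f ∈ D := by
  let S : AddSubgroup (U →ₗ[F] U) :=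
    { carrier := {π | π.comp f ∈ D}
      add_mem' := fun {a b} ha hb => by
        change (a + b).comp f ∈ D
        rw [LinearMap.add_comp]
        exact D.add_mem ha hb
      zero_mem' := by
        change (0 : U →ₗ[F] U).comp f ∈ D
        rw [LinearMap.zero_comp]
        exact D.zero_mem
      neg_mem' := fun {a} ha => by
        change (-a).comp f ∈ D
        rw [LinearMap.neg_comp]
        exact D.neg_mem ha }
  exact units_generate hU S (fun a => hl a f hf) π

theorem right_end {U : Type v} [AddCommGroup U] [Module F U] (hX : ℵ₀ ≤ Module.rank F X)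
    (D : AddSubgroup (X →ₗ[F] U))
    (hr : ∀ (d : X ≃ₗ[F] X) (f : X →ₗ[F] U), f ∈ D → f.comp (d : X →ₗ[F] X) ∈ D)
    (π : X →ₗ[F] X) (f : X →ₗ[F] U) (hf : f ∈ D) : f.comp π ∈ D := by
  let S : AddSubgroup (X →ₗ[F] X) :=
    { carrier := {π | f.comp π ∈ D}
      add_mem' := fun {a b} ha hb => by
        change f.comp (a + b) ∈ D
        rw [LinearMap.comp_add]
        exact D.add_mem ha hb
      zero_mem' := by
        change f.comp (0 : X →ₗ[F] X) ∈ D
        rw [LinearMap.comp_zero]
        exact D.zero_mem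
      neg_mem' := fun {a} ha => by
        change f.comp (-a) ∈ D
        rw [LinearMap.comp_neg]
        exact D.neg_mem ha }
  exact units_generate hX S (fun a => hr a f hf) π

/-- with one map of full rank, `D` is everything -/
theorem hom_top {U : Type v} [AddCommGroup U] [Module F U] (hX : ℵ₀ ≤ Module.rank F X)
    (hXU : Module.rank F X = Module.rank F U) (D : AddSubgroup (X →ₗ[F] U))
    (hl : ∀ (a : U ≃ₗ[F] U) (f : X →ₗ[F] U), f ∈ D → (a : U →ₗ[F] U).comp f ∈ D)
    (hr : ∀ (d : X ≃ₗ[F] X) (f : X →ₗ[F] U), f ∈ D → f.comp (d : X →ₗ[F] X) ∈ D)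
    (T : X →ₗ[F] U) (hT : T ∈ D) (hrk : Module.rank F X ≤ Module.rank F (LinearMap.range T))
    (f : X →ₗ[F] U) : f ∈ D := by
  obtain ⟨K, hK⟩ := Submodule.exists_isCompl (LinearMap.ker T)
  have h1 : Module.rank F K = Module.rank F X := by
    rw [← (Submodule.quotientEquivOfIsCompl _ K hK).rank_eq, T.quotKerEquivRange.rank_eq]
    exact le_antisymm (rank_range_le T) hrk
  let i : X ≃ₗ[F] K := LinearEquiv.ofRankEq X K h1.symm
  let ρ : X →ₗ[F] X := K.subtype.comp (i : X →ₗ[F] K)
  have h2 : Function.Injective (T.comp ρ) := by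
    refine (injective_iff_map_eq_zero _).2 fun x hx => ?_
    have h3 : (i x : X) ∈ LinearMap.ker T := hx
    have h4 := Submodule.disjoint_def.1 hK.disjoint _ h3 (i x).2
    have h5 : i x = 0 := Subtype.ext h4
    exact i.map_eq_zero_iff.1 h5
  obtain ⟨l, hl'⟩ := LinearMap.exists_leftInverse_of_injective (T.comp ρ) (LinearMap.ker_eq_bot.2 h2)
  have h6 : T.comp ρ ∈ D := right_end hX D hr ρ T hT
  have h7 : (f.comp l).comp (T.comp ρ) ∈ D := left_end (hXU ▸ hX) D hl (f.comp l) _ h6
  rwa [LinearMap.comp_assoc, hl', LinearMap.comp_id] at h7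

end units

end Pool.Agent.U685.GLP
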